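import Pool.Agent.K3h51.Lh.Main
import Pool.Agent.TH839.UH.EP

set_option autoImplicit false

/-!
# Euler products with finitely many large local roots do not vanish for `Re s > 1`
-/

namespace Pool.Agent.K3h51.Lh

open Complex Filter Topology Set
open Pool.Agent.TH839.UH.EP
open Pool.Agent.TH839.UH.NF (log_le)
open H353.E Pool.Agent.W355.UN

variable {m : ℕ} {α : Nat.Primes → Fin m → ℂ} {S : Finset Nat.Primes}

theorem u_norm (hα : ∀ p j, ‖α p j‖ ≤ ((p : ℕ) : ℝ) ^ (1 / 2 : ℝ)) {σ : ℝ} (hσ : 1 < σ)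
    (p : Nat.Primes) (j : Fin m) {s : ℂ} (hs : σ ≤ s.re) :
    ‖u α p j s‖ ≤ (2 : ℝ) ^ (1 / 2 - σ : ℝ) := by
  have hp2 : (2 : ℝ) ≤ ((p : ℕ) : ℝ) := by exact_mod_cast p.2.two_le
  have hp0 : (0 : ℝ) < ((p : ℕ) : ℝ) := by linarith
  unfold u
  rw [norm_mul, Complex.norm_natCast_cpow_of_pos p.2.pos, neg_re]
  calc ‖α p j‖ * ((p : ℕ) : ℝ) ^ (-s.re) ≤ ((p : ℕ) : ℝ) ^ (1 / 2 : ℝ) * ((p : ℕ) : ℝ) ^ (-s.re) := by
        gcongr
        exact hα p j
    _ = ((p : ℕ) : ℝ) ^ (1 / 2 + -s.re) := (Real.rpow_add hp0 _ _).symm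
    _ ≤ ((p : ℕ) : ℝ) ^ (1 / 2 - σ : ℝ) :=
        Real.rpow_le_rpow_of_exponent_le (by linarith) (by linarith)
    _ ≤ _ := Real.rpow_le_rpow_of_nonpos (by norm_num) hp2 (by linarith)

theorem F_bd (hα : ∀ p j, ‖α p j‖ ≤ ((p : ℕ) : ℝ) ^ (1 / 2 : ℝ))
    (hg : ∀ p, p ∉ S → ∀ j, ‖α p j‖ ≤ 1) {σ : ℝ} (hσ : 1 < σ) :
    ∃ b : Nat.Primes → ℝ, Summable b ∧ ∀ (p : Nat.Primes) (s : ℂ), σ ≤ s.re → ‖F α p s‖ ≤ b p := by
  classical
  set q : ℝ := (2 : ℝ) ^ (1 / 2 - σ : ℝ) with hq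
  have hq0 : 0 < q := by positivity
  have hq1 : q < 1 := Real.rpow_lt_one_of_one_lt_of_neg (by norm_num) (by linarith)
  refine ⟨fun p => m * 2 * ((p : ℕ) : ℝ) ^ (-σ) +
    (if p ∈ S then m * ((1 - q)⁻¹ / 2 + 1) else 0), ?_, ?_⟩
  · refine Summable.add ?_ ?_
    · exact (Nat.Primes.summable_rpow.2 (by linarith)).mul_left _
    · exact summable_of_ne_finset_zero (s := S) fun p hp => if_neg hp
  · intro p s hs
    have hp2 : (2 : ℝ) ≤ ((p : ℕ) : ℝ) := by exact_mod_cast p.2.two_le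
    have hp0 : (0 : ℝ) < ((p : ℕ) : ℝ) := by linarith
    have hsum : ∀ c : ℝ, (∀ j : Fin m, ‖-log (1 + -u α p j s)‖ ≤ c) → ‖F α p s‖ ≤ m * c := by
      intro c hc
      unfold F
      refine (norm_sum_le _ _).trans ((Finset.sum_le_sum fun j _ => hc j).trans (le_of_eq ?_))
      rw [Finset.sum_const, Finset.card_univ, Fintype.card_fin, nsmul_eq_mul]
    show ‖F α p s‖ ≤ m * 2 * ((p : ℕ) : ℝ) ^ (-σ) + (if p ∈ S then m * ((1 - q)⁻¹ / 2 + 1) else 0)
    by_cases hpS : p ∈ S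
    · rw [if_pos hpS]
      have h1 := hsum ((1 - q)⁻¹ / 2 + 1) fun j => by
        have h2 := u_norm hα hσ p j hs
        rw [← hq] at h2
        have h3 : ‖-u α p j s‖ < 1 := by rw [norm_neg]; linarith
        rw [norm_neg]
        refine (Complex.norm_log_one_add_le h3).trans ?_
        rw [norm_neg]
        have h4 : ‖u α p j s‖ ^ 2 ≤ 1 := pow_le_one₀ (norm_nonneg _) (by linarith)
        have h5 : (1 - ‖u α p j s‖)⁻¹ ≤ (1 - q)⁻¹ := by
          apply inv_anti₀ (by linarith)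
          linarith
        have h6 : ‖u α p j s‖ ^ 2 * (1 - ‖u α p j s‖)⁻¹ ≤ 1 * (1 - q)⁻¹ :=
          mul_le_mul h4 h5 (inv_nonneg.2 (by linarith [norm_nonneg (u α p j s)])) zero_le_one
        linarith
      have h7 : 0 ≤ (m : ℝ) * 2 * ((p : ℕ) : ℝ) ^ (-σ) := by positivity
      linarith
    · rw [if_neg hpS, add_zero]
      have h1 := hsum (2 * ((p : ℕ) : ℝ) ^ (-σ)) fun j => by
        have h2 : ‖u α p j s‖ ≤ ((p : ℕ) : ℝ) ^ (-σ) := by
          unfold u
          rw [norm_mul, Complex.norm_natCast_cpow_of_pos p.2.pos, neg_re]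
          calc ‖α p j‖ * ((p : ℕ) : ℝ) ^ (-s.re) ≤ 1 * ((p : ℕ) : ℝ) ^ (-s.re) := by
                gcongr
                exact hg p hpS j
            _ ≤ _ := by
                rw [one_mul]
                exact Real.rpow_le_rpow_of_exponent_le (by linarith) (by linarith)
        have h3 : ((p : ℕ) : ℝ) ^ (-σ) ≤ 1 / 2 := by
          calc ((p : ℕ) : ℝ) ^ (-σ) ≤ ((p : ℕ) : ℝ) ^ (-(1 : ℝ)) :=
                Real.rpow_le_rpow_of_exponent_le (by linarith) (by linarith)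
            _ = (((p : ℕ) : ℝ))⁻¹ := Real.rpow_neg_one _
            _ ≤ 1 / 2 := by
                rw [inv_le_comm₀ hp0 (by norm_num)]
                norm_num
                exact p.2.two_le
        have h4 := log_le (z := -u α p j s) (by rw [norm_neg]; linarith)
        rw [norm_neg] at h4 ⊢
        linarith
      linarith

theorem prod_eq' (hα : ∀ p j, ‖α p j‖ ≤ ((p : ℕ) : ℝ) ^ (1 / 2 : ℝ))
    (hg : ∀ p, p ∉ S → ∀ j, ‖α p j‖ ≤ 1) {s : ℂ} (hs : 1 < s.re) :
    HasProd (fun p : Nat.Primes => ∏ j, (1 - α p j * ((p : ℕ) : ℂ) ^ (-s))⁻¹) (cexp (LG α s)) := by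
  obtain ⟨b, hb, hF⟩ := F_bd hα hg hs
  have hsum : Summable fun p : Nat.Primes => F α p s :=
    Summable.of_norm_bounded hb fun p => hF p s le_rfl
  have H := hsum.hasSum.cexp
  refine H.congr_fun ?_
  intro p
  simp only [Function.comp_apply]
  unfold F
  rw [Complex.exp_sum]
  refine Finset.prod_congr rfl fun j _ => ?_
  have h1 : ‖u α p j s‖ < 1 := (u_norm hα hs p j le_rfl).trans_lt
    (Real.rpow_lt_one_of_one_lt_of_neg (by norm_num) (by linarith))
  have h2 : 1 + -u α p j s ≠ 0 := by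
    intro h0
    have h3 : u α p j s = 1 := by linear_combination -h0
    rw [h3, norm_one] at h1
    exact lt_irrefl _ h1
  rw [Complex.exp_neg, Complex.exp_log h2]
  unfold u
  rw [← sub_eq_add_neg]

theorem LG_an (hα : ∀ p j, ‖α p j‖ ≤ ((p : ℕ) : ℝ) ^ (1 / 2 : ℝ))
    (hg : ∀ p, p ∉ S → ∀ j, ‖α p j‖ ≤ 1) {s : ℂ} (hs : 1 < s.re) :
    DifferentiableAt ℂ (LG α) s := by
  obtain ⟨σ, hσ1, hσs⟩ := exists_between hs
  obtain ⟨b, hb, hF⟩ := F_bd hα hg hσ1
  have hopen : IsOpen {s : ℂ | σ < s.re} := isOpen_lt continuous_const Complex.continuous_re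
  have h : DifferentiableOn ℂ (LG α) {s : ℂ | σ < s.re} := by
    refine differentiableOn_tsum_of_summable_norm (u := b) hb (fun p s hs => ?_) hopen
      (fun p s hs => hF p s (le_of_lt hs))
    have hs' : σ < s.re := hs
    unfold F
    refine DifferentiableAt.differentiableWithinAt ?_
    refine DifferentiableAt.fun_sum fun j _ => ?_
    have hd : DifferentiableAt ℂ (fun s => 1 + -u α p j s) s := by
      unfold u
      have h1 : DifferentiableAt ℂ (fun s : ℂ => ((p : ℕ) : ℂ) ^ (-s)) s :=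
        DifferentiableAt.const_cpow (by fun_prop) (Or.inl (p0 p))
      exact ((h1.const_mul (α p j)).neg).const_add 1
    have h1 : ‖u α p j s‖ < 1 := (u_norm hα hσ1 p j hs'.le).trans_lt
      (Real.rpow_lt_one_of_one_lt_of_neg (by norm_num) (by linarith))
    refine (hd.clog ?_).neg
    rw [mem_slitPlane_iff]
    left
    have h2 := (abs_le.1 ((Complex.abs_re_le_norm (-u α p j s)))).1
    rw [norm_neg] at h2
    rw [add_re, one_re]
    linarith
  exact h.differentiableAt (hopen.mem_nhds hσs)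

theorem E_an' (hα : ∀ p j, ‖α p j‖ ≤ ((p : ℕ) : ℝ) ^ (1 / 2 : ℝ))
    (hg : ∀ p, p ∉ S → ∀ j, ‖α p j‖ ≤ 1) {s : ℂ} (hs : 1 < s.re) :
    DifferentiableAt ℂ (E α) s ∧ E α s ≠ 0 := by
  have hopen : IsOpen {s : ℂ | 1 < s.re} := isOpen_lt continuous_const Complex.continuous_re
  have hev : E α =ᶠ[𝓝 s] fun s => cexp (LG α s) := by
    filter_upwards [hopen.mem_nhds hs] with z hz
    exact (prod_eq' hα hg hz).tprod_eq
  constructor
  · exact ((LG_an hα hg hs).cexp).congr_of_eventuallyEq hev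
  · rw [hev.eq_of_nhds]
    exact Complex.exp_ne_zero _

variable {r : ℕ} {N : ℝ} {a : Fin m → ℂ} {X : ℂ → ℂ}

/-- no zeros to the right of the line `Re s = 1` -/
theorem HW_ne (h : HW m r N a α X) (hg : ∀ p, p ∉ S → ∀ j, ‖α p j‖ ≤ 1) {s : ℂ} (hs : 1 < s.re) :
    X s ≠ 0 := by
  have hgp := gaf_GP h.hm h.hN h.re_le
  have h1 : AnalyticOnNhd ℂ X {s : ℂ | 1 < s.re} := fun z _ => h.entire.analyticAt z
  have hopen : IsOpen {s : ℂ | 1 < s.re} := isOpen_lt continuous_const Complex.continuous_re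
  have h2 : AnalyticOnNhd ℂ (fun s => gaf N (fun j => -a j) s * ((s * (s - 1)) ^ r * E α s))
      {s : ℂ | 1 < s.re} := by
    refine DifferentiableOn.analyticOnNhd (fun z hz => ?_) hopen
    have hz' : 1 < z.re := hz
    have h3 : DifferentiableAt ℂ (gaf N fun j => -a j) z :=
      (hgp.der z (by linarith)).differentiableAt
    have h4 : DifferentiableAt ℂ (fun s : ℂ => (s * (s - 1)) ^ r) z := by fun_prop
    exact (h3.mul (h4.mul (E_an' h.hα hg hz').1)).differentiableWithinAt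
  have hz0 : (3 : ℂ) ∈ {s : ℂ | 1 < s.re} := by
    show 1 < (3 : ℂ).re
    norm_num
  have h3 : ∀ᶠ z : ℂ in 𝓝 (3 : ℂ), 7 / 4 < z.re :=
    (Complex.continuous_re.tendsto _).eventually (lt_mem_nhds (by norm_num))
  have heq := h1.eqOn_of_preconnected_of_eventuallyEq h2
    (convex_halfSpace_re_gt 1).isPreconnected hz0 (by
      filter_upwards [h3] with z hz
      exact h.eq' hz) hs
  have heq' : X s = gaf N (fun j => -a j) s * ((s * (s - 1)) ^ r * E α s) := heq
  rw [heq']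
  have hs0 : s ≠ 0 := fun h0 => by
    rw [h0] at hs; norm_num at hs
  have hs1 : s - 1 ≠ 0 := fun h0 => by
    rw [sub_eq_zero] at h0
    rw [h0] at hs; norm_num at hs
  exact mul_ne_zero (hgp.ne s (by linarith)) (mul_ne_zero (pow_ne_zero _ (mul_ne_zero hs0 hs1))
    (E_an' h.hα hg hs).2)

/-- the class `UR` -/
theorem HW_UR (h : HW m r N a α X) (hg : ∀ p, p ∉ S → ∀ j, ‖α p j‖ ≤ 1)
    (him : ∀ j, (a j).im = 0) (hc : ∀ s, X ((starRingEnd ℂ) s) = (starRingEnd ℂ) (X s)) :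
    UR m Pool.Agent.TH839.UH.BH N 1 (fun j => -a j) X (fun s => (s * (s - 1)) ^ r * E α s) := by
  refine ⟨Pool.Agent.TH839.UH.ULmono h.ul fun ρ => ?_, le_rfl, fun j => by
    rw [Complex.neg_im, him j, neg_zero], hc, fun s hs => ?_⟩
  · have := Bst_nonneg ρ
    unfold Pool.Agent.TH839.UH.BH
    linarith
  · have hR : ∀ z, X z = 0 → z.re ≤ 1 := fun z hz => by
      by_contra hcon
      push Not at hcon
      exact HW_ne h hg hcon hz
    obtain ⟨ε, hε, hfe⟩ := h.fe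
    have hε0 : ε ≠ 0 := by
      intro h0
      rw [h0, norm_zero] at hε
      exact zero_ne_one hε
    have h2 : X (1 - (starRingEnd ℂ) s) = 0 := by
      have h3 := hfe s
      rw [hs] at h3
      have h4 := (mul_eq_zero.1 h3.symm).resolve_left hε0
      have h5 := congrArg (starRingEnd ℂ) h4
      rwa [Complex.conj_conj, map_zero] at h5
    have h3 := hR _ hs
    have h4 := hR _ h2
    rw [sub_re, one_re, conj_re] at h4
    rw [abs_le]
    constructor <;> linarith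

end Pool.Agent.K3h51.Lh
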