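import Pool.Agent.K3h51.Lh.Co

set_option autoImplicit false

/-!
# Final form: Li coefficients of the derivatives of Hasse-Weil L-functions
-/

open Complex Filter Topology Set
open scoped ComplexConjugate

namespace Pool.Agent.K3h51.Lh

open Pool.Agent.W169.HF Pool.Agent.W355.UN Pool.Agent.TH839.UH H353.E
open Pool.Agent.K3h51.Li (zw)

/-- the `k`-th Li coefficient of the `n`-th derivative of `Λ`, line `Re s = x`, base point `x + b` -/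
noncomputable def li (Λ : ℂ → ℂ) (x b : ℝ) (n k : ℕ) : ℝ :=
  (iteratedDeriv (k - 1) (logDeriv fun w : ℂ =>
    iteratedDeriv n Λ ((x : ℂ) + (b : ℂ) * (2 / (1 - w) - 1))) 0).re / ((k - 1).factorial : ℝ)

structure LiS (C x : ℝ) (d : ℕ) (cn : ℝ → ℝ) (Λ : ℂ → ℂ) : Prop where
  base : ∀ (b : ℝ) (n : ℕ), 1 / 2 ≤ b → 1 / 2 < b ∨ Λ ((x : ℂ) + (b : ℂ)) ≠ 0 →
    iteratedDeriv n Λ ((x : ℂ) + (b : ℂ)) ≠ 0
  pos : ∀ (b : ℝ) (n k : ℕ), 1 / 2 ≤ b → 1 ≤ k →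
    C * (d + Real.log (cn (b * Real.sqrt k))) ≤ n →
      iteratedDeriv n Λ ((x : ℂ) + (b : ℂ)) ≠ 0 ∧ 0 < li Λ x b n k
  grh : ∀ b : ℝ, 1 / 2 ≤ b → Λ ((x : ℂ) + (b : ℂ)) ≠ 0 →
    ((∀ s : ℂ, Λ s = 0 → s.re = x) ↔ ∀ n k : ℕ, 1 ≤ k →
      (n : ℝ) < C * (d + Real.log (cn (b * Real.sqrt k))) → 0 ≤ li Λ x b n k)

theorem zw_two (b : ℝ) (w : ℂ) : ((2 * b : ℝ) : ℂ) * zw w = (b : ℂ) * (2 / (1 - w) - 1) := by
  unfold zw
  push_cast
  ring

theorem LiS_of {C : ℝ} (HC : ∀ (m : ℕ) (N θ : ℝ) (μ : Fin m → ℂ) (X L : ℂ → ℂ),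
    UR m BH N θ μ X L → ∀ (b : ℝ) (n k : ℕ), 1 / 2 ≤ b → 1 ≤ k →
      C * (m + Real.log (W355.UN.cond N μ (b * Real.sqrt k))) ≤ n →
        iteratedDeriv n X (1 / 2 + b) ≠ 0 ∧ 0 < (lc (sc X b n) k).re)
    {m : ℕ} {N θ : ℝ} {μ : Fin m → ℂ} {X L Λ : ℂ → ℂ} (h : UR m BH N θ μ X L) {κ : ℂ} (hκ : κ ≠ 0)
    {c : ℝ} (hΛ : Differentiable ℂ Λ) (hX : ∀ z, X z = κ * Λ (z + c)) {cn : ℝ → ℝ}
    (hcn : (fun y => W355.UN.cond N μ y) = cn) : LiS C (1 / 2 + c) m cn Λ := by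
  have hcn' : ∀ y, cn y = W355.UN.cond N μ y := fun y => by rw [← hcn]
  have hder : ∀ (n : ℕ) (s : ℂ), iteratedDeriv n X s = κ * iteratedDeriv n Λ (s + c) := by
    intro n s
    have e : X = fun z => κ * Λ (z + c) := funext hX
    rw [e]
    have h1 : ContDiffAt ℂ n (fun w => Λ (w + (c : ℂ))) s :=
      (hΛ.comp (by fun_prop : Differentiable ℂ fun w : ℂ => w + (c : ℂ))).contDiff.contDiffAt
    rw [iteratedDeriv_const_mul κ h1, iteratedDeriv_comp_add_const]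
  have hli : ∀ (b : ℝ) (n k : ℕ), li Λ (1 / 2 + c) b n k = (lc (sc X b n) k).re := by
    intro b n k
    unfold li lc
    have e : (fun w : ℂ => sc X b n (zw w)) = fun w : ℂ =>
        κ * iteratedDeriv n Λ (((1 / 2 + c : ℝ) : ℂ) + (b : ℂ) * (2 / (1 - w) - 1)) := by
      funext w
      unfold sc
      rw [iter_cen, zw_two, hder]
      congr 2
      push_cast
      ring
    have e2 : logDeriv (fun w : ℂ => sc X b n (zw w)) = logDeriv fun w : ℂ =>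
        iteratedDeriv n Λ (((1 / 2 + c : ℝ) : ℂ) + (b : ℂ) * (2 / (1 - w) - 1)) := by
      rw [e]
      funext w
      exact logDeriv_const_mul _ _ hκ
    rw [e2, ← Complex.ofReal_natCast, Complex.div_ofReal_re]
  have hXb : ∀ b : ℝ, X (1 / 2 + b) = κ * Λ (((1 / 2 + c : ℝ) : ℂ) + (b : ℂ)) := fun b => by
    rw [hX]
    congr 2
    push_cast
    ring
  have hXn : ∀ (b : ℝ) (n : ℕ), iteratedDeriv n X (1 / 2 + b) =
      κ * iteratedDeriv n Λ (((1 / 2 + c : ℝ) : ℂ) + (b : ℂ)) := fun b n => by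
    rw [hder]
    congr 2
    push_cast
    ring
  refine ⟨fun b n hb h0 => ?_, fun b n k hb hk hn => ?_, fun b hb h0 => ⟨fun hl n k hk _ => ?_,
    fun hall s hs => ?_⟩⟩
  · intro hn
    have h1 : iteratedDeriv n (cen X) b = 0 := by
      rw [iter_cen, hXn, hn, mul_zero]
    by_cases hb2 : 1 / 2 < b
    · exact (h.sy.iter h.nz n).ne (by rwa [Complex.ofReal_re]) h1
    · have hb3 : b = 1 / 2 := le_antisymm (not_lt.1 hb2) hb
      subst hb3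
      have e : (((1 / 2 : ℝ)) : ℂ) = 1 / 2 := by push_cast; rfl
      rw [e] at h1
      refine half_iter h.sy h.nz ?_ n h1
      unfold cen
      have h2 := hXb (1 / 2)
      rw [e] at h2 h0
      rw [h2]
      exact mul_ne_zero hκ (h0.resolve_left hb2)
  · rw [hli]
    obtain ⟨h1, h2⟩ := HC m N θ μ X L h b n k hb hk (by rw [← hcn']; exact hn)
    refine ⟨fun h3 => h1 ?_, h2⟩
    rw [hXn, h3, mul_zero]
  · rw [hli]
    refine nonneg_of h (fun s hs => ?_) hb n k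
    rw [hX] at hs
    have h1 := hl _ ((mul_eq_zero.1 hs).resolve_left hκ)
    rw [add_re, ofReal_re] at h1
    linarith
  · have h1 := line_of h hb (by
      rw [hXb]
      exact mul_ne_zero hκ h0) (fun k hk => by
      rw [← hli]
      rcases lt_or_ge ((0 : ℕ) : ℝ) (C * (m + Real.log (cn (b * Real.sqrt k)))) with h2 | h2
      · exact hall 0 k hk h2
      · rw [hli]
        exact (HC m N θ μ X L h b 0 k hb hk (by rw [← hcn']; exact h2)).2.le) (s - c) (by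
      rw [hX, sub_add_cancel, hs, mul_zero])
    rw [sub_re, ofReal_re] at h1
    linarith

/-! ## The powers of the curve `y² = x³ - x` -/

/-- `Pk` with real parameters, and real on the real axis -/
def PkM (d : ℕ) (N : ℝ) (cn : ℝ → ℝ) (G X : ℂ → ℂ) : Prop :=
  (∃ (μ : Fin d → ℂ) (L : ℂ → ℂ), UL d Bst N 0 μ X L ∧ (∀ j, (μ j).im = 0) ∧
    (∀ y, W355.UN.cond N μ y = cn y) ∧ ∃ σ : ℝ, ∀ s : ℂ, σ ≤ s.re → X s = G s) ∧
    ∀ s, X (conj s) = conj (X s)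

theorem pkM_mul {d1 d2 : ℕ} {N1 N2 : ℝ} {c1 c2 : ℝ → ℝ} {G1 G2 X1 X2 : ℂ → ℂ}
    (h1 : PkM d1 N1 c1 G1 X1) (h2 : PkM d2 N2 c2 G2 X2) :
    PkM (d1 + d2) (N1 * N2) (fun y => c1 y * c2 y) (fun s => G1 s * G2 s) (fun s => X1 s * X2 s) := by
  obtain ⟨⟨μ1, L1, u1, i1, e1, σ1, g1⟩, s1⟩ := h1
  obtain ⟨⟨μ2, L2, u2, i2, e2, σ2, g2⟩, s2⟩ := h2
  refine ⟨⟨_, _, u1.mul u2, fun j => ?_, fun y => ?_, max σ1 σ2, fun s hs => ?_⟩, fun s => ?_⟩
  · refine Fin.addCases (fun i => ?_) (fun i => ?_) j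
    · rw [Fin.append_left]; exact i1 i
    · rw [Fin.append_right]; exact i2 i
  · rw [cond_append, e1, e2]
  · show X1 s * X2 s = G1 s * G2 s
    rw [g1 s ((le_max_left _ _).trans hs), g2 s ((le_max_right _ _).trans hs)]
  · show X1 (conj s) * X2 (conj s) = conj (X1 s * X2 s)
    rw [s1, s2, map_mul]

theorem pkM_pow1 {d : ℕ} {N : ℝ} {cn : ℝ → ℝ} {G : ℂ → ℂ} (h : ∃ X, PkM d N cn G X) (n : ℕ)
    (hn : n ≠ 0) : ∃ X, PkM (n * d) (N ^ n) (fun y => cn y ^ n) (fun s => G s ^ n) X := by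
  induction n with
  | zero => exact absurd rfl hn
  | succ n ih =>
    rcases Nat.eq_zero_or_pos n with rfl | hpos
    · simpa using h
    · obtain ⟨X1, h1⟩ := ih hpos.ne'
      obtain ⟨X2, h2⟩ := h
      refine ⟨fun s => X1 s * X2 s, ?_⟩
      have h3 := pkM_mul h1 h2
      simp only [← pow_succ, ← Nat.succ_mul] at h3
      exact h3

theorem pkM_prod (d : ℕ → ℕ) (N : ℕ → ℝ) (cn : ℕ → ℝ → ℝ) (G : ℕ → ℂ → ℂ)
    (h : ∀ l, ∃ X, PkM (d l) (N l) (cn l) (G l) X) (c : ℕ → ℕ) (h0 : c 0 ≠ 0) (n : ℕ) :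
    ∃ X, PkM (∑ l ∈ Finset.range (n + 1), c l * d l) (∏ l ∈ Finset.range (n + 1), N l ^ c l)
      (fun y => ∏ l ∈ Finset.range (n + 1), cn l y ^ c l)
      (fun s => ∏ l ∈ Finset.range (n + 1), G l s ^ c l) X := by
  induction n with
  | zero =>
    simpa using pkM_pow1 (h 0) (c 0) h0
  | succ n ih =>
    obtain ⟨X1, h1⟩ := ih
    by_cases hc : c (n + 1) = 0
    · refine ⟨X1, ?_⟩
      simp only [Finset.prod_range_succ _ (n + 1), Finset.sum_range_succ _ (n + 1), hc, pow_zero,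
        mul_one, zero_mul, add_zero]
      exact h1
    · obtain ⟨X2, h2⟩ := pkM_pow1 (h (n + 1)) (c (n + 1)) hc
      refine ⟨fun s => X1 s * X2 s, ?_⟩
      have h3 := pkM_mul h1 h2
      simp only [← Finset.prod_range_succ, ← Finset.sum_range_succ] at h3
      exact h3

theorem pkM_congr {d : ℕ} {N : ℝ} {cn cn' : ℝ → ℝ} {G G' X : ℂ → ℂ} (h : PkM d N cn G X)
    (h1 : ∀ y, cn y = cn' y) (h2 : ∃ σ : ℝ, ∀ s : ℂ, σ ≤ s.re → G s = G' s) : PkM d N cn' G' X := by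
  obtain ⟨⟨μ, L, u, i, e, σ, g⟩, hs⟩ := h
  obtain ⟨σ', h2⟩ := h2
  exact ⟨⟨μ, L, u, i, fun y => (e y).trans (h1 y), max σ σ', fun s hs =>
    (g s ((le_max_left _ _).trans hs)).trans (h2 s ((le_max_right _ _).trans hs))⟩, hs⟩

theorem pkM_raw {l : List ℝ} {r : ℕ} {N : ℝ} {b c : ℕ → ℂ} {X : ℂ → ℂ}
    (h : RawL (l.map fun a : ℝ => (a : ℂ)) r N b c X) (hc : ∀ s, X (conj s) = conj (X s)) :
    PkM (l.map fun a : ℝ => (a : ℂ)).length N (acond N (l.map fun a : ℝ => (a : ℂ)))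
      (cser r N (l.map fun a : ℝ => (a : ℂ)) b) X := by
  obtain ⟨σ, hσ⟩ := h.eq
  refine ⟨⟨_, _, Raw.ul Pool.Agent.W672.UN.coef Pool.Agent.W12.UN.slow Pool.Agent.W215.UN.gam h,
    fun j => ?_, fun y => ?_, σ, fun s hs => ?_⟩, hc⟩
  · have h1 := List.get_mem (l.map fun a : ℝ => (a : ℂ)) j
    obtain ⟨a, _, ha2⟩ := List.mem_map.1 h1
    rw [neg_im, ← ha2, Complex.ofReal_im, neg_zero]
  · unfold acond W355.UN.cond
    rw [← prod_get (l.map fun a : ℝ => (a : ℂ)) (fun a : ℂ => 1 + ‖(y : ℂ) * I + a‖)]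
    simp only [sub_neg_eq_add]
  · rw [hσ s hs]
    unfold cser
    rw [← prod_get (l.map fun a : ℝ => (a : ℂ)) (fun a : ℂ => Gammaℝ (s + a))]

open Pool.Agent.W355.LJ Pool.Agent.W355.HW in
open Pool.Agent.W354.PK (HCk LK bK psik goodK) in
open Pool.Agent.W354.HW (chiE qE chiE_pow_HC chiE_apply gE euler_k) in
theorem pkM_one (l : ℕ) : ∃ X, PkM 2 32 (cn1 l) (G1 l) X := by
  have hH := chiE_pow_HC (odd_l l)
  obtain ⟨w, Λ, hw, h⟩ := hecke_isC (k := 2 * l + 1) (by omega) qE _ hH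
  have hn : (4 * Zsqrtd.norm qE : ℤ) = 32 := by decide
  have hN : ((4 * Zsqrtd.norm qE : ℤ) : ℝ) = 32 := by rw [hn]; norm_num
  have hlg := Pool.Agent.H304R3.HK.lg_bb (psik (2 * l + 1) (chiE ^ (2 * l + 1)))
    (Pool.Agent.W354.PK.uh_psik hH)
  have hst := h.real_star (bK_real _)
  rw [log_tc hH.q0, hN] at h
  have hl0 : (0 : ℝ) ≤ l := Nat.cast_nonneg l
  have e1 : ((2 * l + 1 : ℕ) : ℝ) / 2 = (l : ℝ) + 1 / 2 := by push_cast; ring
  rw [e1] at h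
  have hraw := raw_of_isC (l := [(l : ℝ) + 1 / 2, (l : ℝ) + 1 / 2 + 1]) (by simp)
    (by norm_num : (1 : ℝ) ≤ 32) (fun a ha => ?_) h hw
    (c := Pool.Agent.H304R3.HK.ccf (psik (2 * l + 1) (chiE ^ (2 * l + 1)))) (fun n => ?_) hlg.lg
  · refine ⟨Λ, pkM_congr (pkM_raw hraw (fun s => ?_)) (fun y => ?_) ⟨2, fun s hs => ?_⟩⟩
    · have := congrFun hst (conj s)
      unfold st at this
      rw [Complex.conj_conj] at this
      exact this.symm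
    · unfold acond cn1
      simp only [List.map_cons, List.map_nil, List.prod_cons, List.prod_nil, mul_one]
      push_cast
      rfl
    · unfold cser G1
      rw [lseries_FE l (by linarith)]
      simp only [List.map_cons, List.map_nil, List.prod_cons, List.prod_nil, mul_one, pow_zero,
        one_mul]
      push_cast
      congr 2
      rw [← Complex.Gammaℝ_mul_Gammaℝ_add_one]
      congr 2
      · ring
      · ring
  · simp only [List.mem_cons, List.not_mem_nil, or_false] at ha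
    rcases ha with rfl | rfl <;> linarith
  · simpa using hlg.cd n

theorem pkM_pow (g m : ℕ) (hm : m < g) :
    ∃ X, PkM ((2 * g).choose (2 * m + 1)) (W355.HW.Cond g (2 * m + 1)) (cnP g (2 * m + 1)) (W355.HW.GP g m) X := by
  obtain ⟨X, h⟩ := pkM_prod (fun _ => 2) (fun _ => 32) cn1 W355.HW.G1 pkM_one (W355.HW.mu g m) (W355.HW.mu_zero hm) m
  rw [sum_BB, two_BB, Finset.prod_pow_eq_pow_sum] at h
  have e : (32 : ℝ) ^ (∑ l ∈ Finset.range (m + 1), W355.HW.mu g m l) = W355.HW.Cond g (2 * m + 1) :=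
    W355.HW.BB_eq g m
  rw [e] at h
  exact ⟨X, pkM_congr h (fun y => cnP_eq g m y) ⟨0, fun s _ => (W355.HW.GP_eq g m s).symm⟩⟩

theorem pkM_UR {d : ℕ} {N : ℝ} {cn : ℝ → ℝ} {G X : ℂ → ℂ} (h : PkM d N cn G X) :
    ∃ (μ : Fin d → ℂ) (L : ℂ → ℂ), UR d BH N 0 μ X L ∧ (fun y => W355.UN.cond N μ y) = cn := by
  obtain ⟨⟨μ, L, u, hi, e, -⟩, hs⟩ := h
  refine ⟨μ, L, ⟨ULmono u fun ρ => ?_, zero_le_one, hi, hs, fun s hs0 => ?_⟩, funext e⟩
  · have := NF.B0_nonneg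
    unfold BH
    linarith
  · have hR : ∀ z, X z = 0 → z.re ≤ 1 := fun z hz => by
      by_contra hcon
      push Not at hcon
      exact u.Xne (by linarith) hz
    obtain ⟨ε, hε, hfe⟩ := u.fe
    have hε0 : ε ≠ 0 := by
      intro h0
      rw [h0, norm_zero] at hε
      exact zero_ne_one hε
    have h2 : X (1 - conj s) = 0 := by
      have h3 := hfe s
      rw [hs0] at h3
      have h4 := (mul_eq_zero.1 h3.symm).resolve_left hε0
      have h5 := congrArg (starRingEnd ℂ) h4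
      rwa [Complex.conj_conj, map_zero] at h5
    have h3 := hR _ hs0
    have h4 := hR _ h2
    rw [sub_re, one_re, conj_re] at h4
    rw [abs_le]
    constructor <;> linarith

theorem pow_li {C : ℝ} (HC : ∀ (m : ℕ) (N θ : ℝ) (μ : Fin m → ℂ) (X L : ℂ → ℂ),
    UR m BH N θ μ X L → ∀ (b : ℝ) (n k : ℕ), 1 / 2 ≤ b → 1 ≤ k →
      C * (m + Real.log (W355.UN.cond N μ (b * Real.sqrt k))) ≤ n →
        iteratedDeriv n X (1 / 2 + b) ≠ 0 ∧ 0 < (lc (sc X b n) k).re)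
    (g m : ℕ) (hm : m < g) :
    ∃ (Λ : ℂ → ℂ), Differentiable ℂ Λ ∧
    (∀ s : ℂ, (((2 * m + 1 : ℕ) : ℝ) - 1) / 2 < s.re →
      Λ s = (W355.HW.Cond g (2 * m + 1) : ℂ) ^ ((s - ((2 * m + 1 : ℕ) : ℂ) / 2) / 2) *
        W355.HW.GamF g (2 * m + 1) s * W355.HW.LL0 g m (s - ((2 * m + 1 : ℕ) : ℂ) / 2)) ∧
    (∀ s : ℂ, Λ (conj s) = conj (Λ s)) ∧
    (∃ r : ℕ, r ≤ 1 ∧ ∀ s : ℂ, Λ (((2 * m + 1 : ℕ) : ℂ) + 1 - s) = (-1) ^ r * Λ s) ∧
    LiS C ((((2 * m + 1 : ℕ) : ℝ) + 1) / 2) ((2 * g).choose (2 * m + 1))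
      (cnP g (2 * m + 1)) Λ := by
  obtain ⟨C', K, hC', -, H'⟩ := Pool.Agent.W355.UN.fin_all
  obtain ⟨Λ, h1, h2, h3, h4, -⟩ := Pool.Agent.W355.UN.main_pow H' hC' g m hm
  refine ⟨Λ, h1, h2, h3, h4, ?_⟩
  obtain ⟨X, hpk⟩ := pkM_pow g m hm
  obtain ⟨μ, L, hUR, hcn⟩ := pkM_UR hpk
  have hd := hUR.ul.slow.1
  obtain ⟨⟨μ', L', u, -, ec, σ, hσ⟩, -⟩ := hpk
  have hc2 : ((2 * m + 1 : ℕ) : ℂ) / 2 = (((((2 * m + 1 : ℕ) : ℝ) / 2 : ℝ)) : ℂ) := by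
    push_cast
    rfl
  have hX : ∀ z, X z = 1 * Λ (z + (((((2 * m + 1 : ℕ) : ℝ) / 2 : ℝ)) : ℂ)) := by
    intro z
    rw [one_mul]
    have hd2 : Differentiable ℂ fun z : ℂ => Λ (z + (((((2 * m + 1 : ℕ) : ℝ) / 2 : ℝ)) : ℂ)) :=
      h1.comp (by fun_prop)
    have e : (fun z => Λ (z + (((((2 * m + 1 : ℕ) : ℝ) / 2 : ℝ)) : ℂ))) = X := by
      refine Pk.uniq hd hd2 (G := W355.HW.GP g m) ⟨σ, hσ⟩ ⟨0, fun s hs => ?_⟩
      show Λ (s + (((((2 * m + 1 : ℕ) : ℝ) / 2 : ℝ)) : ℂ)) = _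
      rw [h2 _ (by rw [add_re, ofReal_re]; linarith), hc2, add_sub_cancel_right]
      unfold W355.HW.GP
      rw [W355.HW.BB_eq, ← W355.HW.GamF_eq]
      rw [← hc2]
      simp only [add_sub_cancel_right]
    exact (congrFun e z).symm
  have hs := LiS_of HC hUR one_ne_zero h1 hX hcn
  have e : (1 / 2 + (((2 * m + 1 : ℕ) : ℝ) / 2)) = ((((2 * m + 1 : ℕ) : ℝ) + 1) / 2) := by ring
  rw [e] at hs
  exact hs

end Pool.Agent.K3h51.Lh
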