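import Pool.Agent.K3h51.Lh.Had

set_option autoImplicit false

/-!
# Symmetric entire functions: derivatives, Li coefficients, the criterion
-/

namespace Pool.Agent.K3h51.Lh

open Complex Filter Topology Metric Set
open Pool.Agent.K3h51.Li (Ap gs As pr Ss zw uu EE gs_lim dgs_lim Ss_lim gs_re as_nonneg as_le le_as
  dgs_le Strp Ss_pair EE_nonneg no_zero zw_diff)
open Pool.Agent.W169.HF (Slow)

variable {f : ℂ → ℂ}

theorem strp (h : Sy f) {Z : ℕ → Multiset ℂ} {c : ℕ → ℂ} (hA : Ap f Z c) (N : ℕ) : Strp (Z N) :=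
  fun ρ hρ => h.strip ρ (hA.zero N ρ hρ)

theorem logDeriv_re_nonneg (h : Sy f) {z : ℂ} (hz : 1 / 2 < z.re) : 0 ≤ (logDeriv f z).re := by
  obtain ⟨Z, c, hA⟩ := ap_of h
  have h1 := (Complex.continuous_re.tendsto _).comp (gs_lim hA (h.ne hz))
  refine ge_of_tendsto' h1 fun N => ?_
  refine le_trans ?_ (as_le (strp h hA N) z)
  exact mul_nonneg (by linarith) (as_nonneg _ _)

/-- a symmetric function whose derivative is not identically zero has a zero -/
theorem ex_zero (h : Sy f) (hne : ∃ z, deriv f z ≠ 0) : ∃ ρ, f ρ = 0 := by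
  by_contra hcon
  push Not at hcon
  obtain ⟨Z, c, hA⟩ := ap_of h
  have hZ : ∀ N, Z N = 0 := by
    intro N
    rw [Multiset.eq_zero_iff_forall_notMem]
    intro ρ hρ
    exact hcon ρ (hA.zero N ρ hρ)
  obtain ⟨z, hz⟩ := hne
  have h1 := gs_lim hA (hcon z)
  have h2 : ∀ N, gs (Z N) z = 0 := by
    intro N
    rw [hZ N]
    simp [gs]
  simp only [h2] at h1
  have h3 := tendsto_nhds_unique h1 tendsto_const_nhds
  rw [logDeriv_apply] at h3
  exact div_ne_zero hz (hcon z) h3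

/-- the derivative does not vanish to the right of the zeros -/
theorem deriv_right (h : Sy f) (hne : ∃ z, deriv f z ≠ 0) {σ : ℝ} (hσ : ∀ ρ, f ρ = 0 → ρ.re ≤ σ)
    {z : ℂ} (hz : σ < z.re) : deriv f z ≠ 0 := by
  intro hd
  have h0 : f z ≠ 0 := fun h1 => by
    have := hσ z h1
    linarith
  obtain ⟨ρ1, hρ1⟩ := ex_zero h hne
  obtain ⟨Z, c, hA⟩ := ap_of h
  have h1 := (Complex.continuous_re.tendsto _).comp (gs_lim hA h0)
  have h2 : (logDeriv f z).re = 0 := by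
    rw [logDeriv_apply, hd, zero_div, Complex.zero_re]
  rw [h2] at h1
  have hne1 : z ≠ ρ1 := fun h3 => h0 (by rw [h3]; exact hρ1)
  have hpos : 0 < (z.re - σ) * (1 / ‖z - ρ1‖ ^ 2) := by
    have : 0 < ‖z - ρ1‖ := norm_pos_iff.2 (sub_ne_zero.2 hne1)
    have : 0 < z.re - σ := by linarith
    positivity
  have h3 : (z.re - σ) * (1 / ‖z - ρ1‖ ^ 2) ≤ 0 := by
    refine ge_of_tendsto h1 ?_
    filter_upwards [hA.ex ρ1 hρ1] with N hN
    simp only [Function.comp_apply]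
    rw [gs_re]
    have h4 : ∀ ρ ∈ Z N, (z.re - σ) * (1 / ‖z - ρ‖ ^ 2) ≤ (z.re - ρ.re) * (1 / ‖z - ρ‖ ^ 2) := by
      intro ρ hρ
      have := hσ ρ (hA.zero N ρ hρ)
      apply mul_le_mul_of_nonneg_right _ (by positivity)
      linarith
    refine (h4 ρ1 hN).trans ?_
    refine Multiset.single_le_sum (fun x hx => ?_) _ (Multiset.mem_map.2 ⟨ρ1, hN, rfl⟩)
    obtain ⟨ρ, hρ, rfl⟩ := Multiset.mem_map.1 hx
    refine le_trans ?_ (h4 ρ hρ)
    have : 0 < z.re - σ := by linarith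
    positivity
  linarith

theorem par_deriv (hp : Par f) : Par (deriv f) := by
  have hd : ∀ z, deriv (fun w => f (-w)) z = -deriv f (-z) := fun z => by
    rw [deriv_comp_neg]
  rcases hp with hp | hp
  · right
    intro z
    have h1 := hd z
    have e : (fun w => f (-w)) = f := funext hp
    rw [e] at h1
    rw [h1, neg_neg]
  · left
    intro z
    have h1 := hd z
    have e : (fun w => f (-w)) = fun w => -f w := funext hp
    rw [e, deriv.fun_neg] at h1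
    linear_combination h1

theorem Par.zero {f : ℂ → ℂ} (hp : Par f) {z : ℂ} (h : f z = 0) : f (-z) = 0 := by
  rcases hp with hp | hp
  · rw [hp, h]
  · rw [hp, h, neg_zero]

theorem slow_deriv {f : ℂ → ℂ} (hf : Slow f) : Slow (deriv f) := by
  refine ⟨hf.1.deriv, fun δ hδ => ?_⟩
  obtain ⟨K, hK, hb⟩ := hf.2 (δ / 2) (by positivity)
  refine ⟨K * Real.exp δ, by positivity, fun z => ?_⟩
  have h3 := Complex.norm_deriv_le_of_forall_mem_sphere_norm_le (c := z) (R := 1)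
    (C := K * Real.exp δ * Real.exp (δ * ‖z‖ ^ 2)) (f := f) one_pos hf.1.diffContOnCl
    (fun w hw => ?_)
  · simpa using h3
  · refine (hb w).trans ?_
    rw [mul_assoc, ← Real.exp_add]
    refine mul_le_mul_of_nonneg_left (Real.exp_le_exp.2 ?_) hK.le
    rw [mem_sphere_iff_norm] at hw
    have h4 : ‖w‖ ≤ ‖z‖ + 1 := by
      have := norm_add_le (w - z) z
      rw [sub_add_cancel, hw] at this
      linarith
    have h5 : ‖w‖ ^ 2 ≤ (‖z‖ + 1) ^ 2 := pow_le_pow_left₀ (norm_nonneg w) h4 2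
    have h6 : (‖z‖ + 1) ^ 2 ≤ 2 * ‖z‖ ^ 2 + 2 := by nlinarith [sq_nonneg (‖z‖ - 1)]
    nlinarith

theorem Sy.deriv (h : Sy f) (hne : ∃ z, deriv f z ≠ 0) : Sy (deriv f) := by
  have hpar := par_deriv h.par
  have hR : ∀ z : ℂ, _root_.deriv f z = 0 → z.re ≤ 1 / 2 := by
    intro z hz
    by_contra hc
    push Not at hc
    exact deriv_right h hne (σ := 1 / 2) (fun ρ hρ => (abs_le.1 (h.strip ρ hρ)).2) hc hz
  refine ⟨slow_deriv h.slow, hpar, fun z => ?_, fun z hz => ?_⟩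
  · have := Pool.Agent.H24R2.JP.B1h.iter_conj f h.conj 1 z
    rwa [iteratedDeriv_one] at this
  · have h1 := hR z hz
    have h2 := hR (-z) (hpar.zero hz)
    rw [Complex.neg_re] at h2
    rw [abs_le]
    constructor <;> linarith

/-- no derivative vanishes identically -/
def Nz (f : ℂ → ℂ) : Prop := ∀ n : ℕ, ∃ z, iteratedDeriv n f z ≠ 0

theorem Sy.iter (h : Sy f) (hN : Nz f) (n : ℕ) : Sy (iteratedDeriv n f) := by
  induction n with
  | zero => simpa using h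
  | succ n ih =>
    rw [iteratedDeriv_succ]
    refine ih.deriv ?_
    obtain ⟨z, hz⟩ := hN (n + 1)
    exact ⟨z, by rwa [iteratedDeriv_succ] at hz⟩

/-- if `f` does not vanish at the edge point `1 / 2` of the strip, then neither does its derivative -/
theorem half_ne (h : Sy f) (hne : ∃ z, deriv f z ≠ 0) (h0 : f (1 / 2) ≠ 0) :
    deriv f (1 / 2) ≠ 0 := by
  intro hd
  obtain ⟨ρ1, hρ1, hre⟩ : ∃ ρ1, f ρ1 = 0 ∧ ρ1.re ≤ 0 := by
    obtain ⟨ρ, hρ⟩ := ex_zero h hne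
    rcases le_total ρ.re 0 with h1 | h1
    · exact ⟨ρ, hρ, h1⟩
    · exact ⟨-ρ, h.par.zero hρ, by rw [Complex.neg_re]; linarith⟩
  obtain ⟨Z, c, hA⟩ := ap_of h
  have h1 := (Complex.continuous_re.tendsto _).comp (gs_lim hA h0)
  have h2 : (logDeriv f (1 / 2)).re = 0 := by
    rw [logDeriv_apply, hd, zero_div, Complex.zero_re]
  rw [h2] at h1
  have hz : ((1 / 2 : ℂ)).re = 1 / 2 := by norm_num
  have hne1 : (1 / 2 : ℂ) ≠ ρ1 := fun h3 => h0 (by rw [h3]; exact hρ1)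
  have hpos : 0 < 1 / 2 * (1 / ‖(1 / 2 : ℂ) - ρ1‖ ^ 2) := by
    have : 0 < ‖(1 / 2 : ℂ) - ρ1‖ := norm_pos_iff.2 (sub_ne_zero.2 hne1)
    positivity
  have h3 : 1 / 2 * (1 / ‖(1 / 2 : ℂ) - ρ1‖ ^ 2) ≤ 0 := by
    refine ge_of_tendsto h1 ?_
    filter_upwards [hA.ex ρ1 hρ1] with N hN
    simp only [Function.comp_apply]
    rw [gs_re]
    have h5 : 1 / 2 * (1 / ‖(1 / 2 : ℂ) - ρ1‖ ^ 2) ≤
        ((1 / 2 : ℂ).re - ρ1.re) * (1 / ‖(1 / 2 : ℂ) - ρ1‖ ^ 2) := by
      apply mul_le_mul_of_nonneg_right _ (by positivity)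
      rw [hz]
      linarith
    refine h5.trans ?_
    refine Multiset.single_le_sum (fun x hx => ?_) _ (Multiset.mem_map.2 ⟨ρ1, hN, rfl⟩)
    obtain ⟨ρ, hρ, rfl⟩ := Multiset.mem_map.1 hx
    have := (abs_le.1 (h.strip ρ (hA.zero N ρ hρ))).2
    rw [hz]
    have : 0 ≤ 1 / 2 - ρ.re := by linarith
    positivity
  linarith

theorem half_iter (h : Sy f) (hN : Nz f) (h0 : f (1 / 2) ≠ 0) (n : ℕ) :
    iteratedDeriv n f (1 / 2) ≠ 0 := by
  induction n with
  | zero => simpa using h0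
  | succ n ih =>
    rw [iteratedDeriv_succ]
    obtain ⟨z, hz⟩ := hN (n + 1)
    exact half_ne (h.iter hN n) ⟨z, by rwa [iteratedDeriv_succ] at hz⟩ ih

/-- scaling -/
theorem Sy.scale (h : Sy f) {a : ℝ} (ha : 1 ≤ a) : Sy (fun z => f (a * z)) := by
  have ha0 : 0 < a := by linarith
  refine ⟨⟨h.diff.comp (by fun_prop), fun δ hδ => ?_⟩, ?_, fun z => ?_, fun z hz => ?_⟩
  · obtain ⟨K, hK, hb⟩ := h.slow.2 (δ / a ^ 2) (by positivity)
    refine ⟨K, hK, fun z => (hb _).trans (le_of_eq ?_)⟩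
    rw [norm_mul, Complex.norm_real, Real.norm_eq_abs, abs_of_pos ha0]
    congr 2
    field_simp
  · rcases h.par with hp | hp
    · left
      intro z
      show f (a * -z) = f (a * z)
      rw [mul_neg, hp]
    · right
      intro z
      show f (a * -z) = -f (a * z)
      rw [mul_neg, hp]
  · rw [← h.conj, map_mul, Complex.conj_ofReal]
  · have h1 := h.strip _ hz
    rw [Complex.re_ofReal_mul, abs_mul, abs_of_pos ha0] at h1
    nlinarith [abs_nonneg z.re]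

/-! ## Li coefficients -/

/-- The `k`-th Li coefficient of `f`. -/
noncomputable def lc (f : ℂ → ℂ) (k : ℕ) : ℂ :=
  iteratedDeriv (k - 1) (logDeriv (fun w => f (zw w))) 0 / ((k - 1).factorial : ℂ)

theorem lc_lim {Z : ℕ → Multiset ℂ} {c : ℕ → ℂ} (h : Ap f Z c) (h0 : f (zw 0) ≠ 0) (k : ℕ) :
    Tendsto (fun N => Ss (Z N) (k - 1) 0) atTop (𝓝 (lc f k)) :=
  Ss_lim h (k - 1) (by norm_num) h0

theorem line_deriv (h : Sy f) (hne : ∃ z, deriv f z ≠ 0) (hl : ∀ ρ, f ρ = 0 → ρ.re = 0) :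
    ∀ ρ, deriv f ρ = 0 → ρ.re = 0 := by
  have key : ∀ z, deriv f z = 0 → ¬ 0 < z.re := fun z hz hre =>
    deriv_right h hne (σ := 0) (fun ρ hρ => (hl ρ hρ).le) hre hz
  intro ρ hρ
  have h1 := key ρ hρ
  have h2 := key (-ρ) ((par_deriv h.par).zero hρ)
  rw [Complex.neg_re] at h2
  linarith

theorem line_iter (h : Sy f) (hN : Nz f) (hl : ∀ ρ, f ρ = 0 → ρ.re = 0) (n : ℕ) :
    ∀ ρ, iteratedDeriv n f ρ = 0 → ρ.re = 0 := by
  induction n with
  | zero => simpa using hl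
  | succ n ih =>
    rw [iteratedDeriv_succ]
    obtain ⟨z, hz⟩ := hN (n + 1)
    exact line_deriv (h.iter hN n) ⟨z, by rwa [iteratedDeriv_succ] at hz⟩ ih

theorem zw_zero : zw 0 = ((1 / 2 : ℝ) : ℂ) := by
  unfold zw
  push_cast
  norm_num

theorem nonneg_of_line (h : Sy f) (hl : ∀ ρ, f ρ = 0 → ρ.re = 0) (k : ℕ) : 0 ≤ (lc f k).re := by
  obtain ⟨Z, c, hA⟩ := ap_of h
  have h0 : f (zw 0) ≠ 0 := fun h1 => by
    have := hl _ h1
    rw [zw_zero, Complex.ofReal_re] at this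
    norm_num at this
  have h1 := (Complex.continuous_re.tendsto _).comp (lc_lim hA h0 k)
  refine ge_of_tendsto' h1 fun N => ?_
  simp only [Function.comp_apply]
  rw [Ss_pair (hA.neg N)]
  refine mul_nonneg (by norm_num) (Multiset.sum_nonneg fun x hx => ?_)
  obtain ⟨ρ, hρ, rfl⟩ := Multiset.mem_map.1 hx
  exact EE_nonneg _ (hl ρ (hA.zero N ρ hρ))

/-! ## The converse -/

theorem Fc (h : ∀ z, f ((starRingEnd ℂ) z) = (starRingEnd ℂ) (f z)) (w : ℂ) :
    f (zw ((starRingEnd ℂ) w)) = (starRingEnd ℂ) (f (zw w)) := by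
  unfold zw
  rw [← h]
  congr 1
  simp only [map_sub, map_div₀, map_one, map_ofNat]

theorem La_conj (h : ∀ z, f ((starRingEnd ℂ) z) = (starRingEnd ℂ) (f z)) (w : ℂ) :
    logDeriv (fun w => f (zw w)) ((starRingEnd ℂ) w) =
      (starRingEnd ℂ) (logDeriv (fun w => f (zw w)) w) := by
  rw [logDeriv_apply, logDeriv_apply, map_div₀, Fc h]
  congr 1
  have := Pool.Agent.H24R2.JP.B1h.iter_conj (fun w => f (zw w)) (Fc h) 1 w
  rwa [iteratedDeriv_one] at this

theorem lc_real (h : ∀ z, f ((starRingEnd ℂ) z) = (starRingEnd ℂ) (f z)) (k : ℕ) :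
    (((lc f k).re : ℝ) : ℂ) = lc f k := by
  apply Complex.conj_eq_iff_re.1
  unfold lc
  rw [map_div₀]
  have h1 := Pool.Agent.H24R2.JP.B1h.iter_conj (logDeriv (fun w => f (zw w))) (La_conj h) (k - 1) 0
  rw [map_zero] at h1
  have h2 : (starRingEnd ℂ) ((k - 1).factorial : ℂ) = ((k - 1).factorial : ℂ) := by
    simp
  rw [h2]
  congr 1
  exact h1.symm

theorem Fd (h : Differentiable ℂ f) {w : ℂ} (hw : w ≠ 1) : DifferentiableAt ℂ (fun w => f (zw w)) w :=
  (h _).comp w (zw_diff hw)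

/-- Non-negativity of all Li coefficients: no zeros to the right. -/
theorem li_line (hS : Sy f) (hhalf : f (zw 0) ≠ 0) (h : ∀ k : ℕ, 1 ≤ k → 0 ≤ (lc f k).re) :
    ∀ z, f z = 0 → ¬ 0 < z.re := by
  intro z1 hz1 hre
  have hsd := hS.diff
  set F : ℂ → ℂ := fun w => f (zw w) with hF
  have hsne : z1 + 1 / 2 ≠ 0 := by
    intro h0
    have := congrArg Complex.re h0
    simp at this
    linarith
  set w1 : ℂ := (z1 - 1 / 2) / (z1 + 1 / 2) with hw1
  have hzw1 : zw w1 = z1 := by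
    unfold zw
    have e : 1 - w1 = 1 / (z1 + 1 / 2) := by
      rw [eq_div_iff hsne]
      have e0 : w1 * (z1 + 1 / 2) = z1 - 1 / 2 := div_mul_cancel₀ _ hsne
      linear_combination -e0
    rw [e, one_div_one_div]
    ring
  have hw1n : ‖w1‖ < 1 := by
    rw [hw1, norm_div, div_lt_one (norm_pos_iff.2 hsne)]
    refine lt_of_pow_lt_pow_left₀ 2 (norm_nonneg _) ?_
    rw [← Complex.normSq_eq_norm_sq, ← Complex.normSq_eq_norm_sq, Complex.normSq_apply,
      Complex.normSq_apply]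
    simp
    nlinarith
  have hF1 : F w1 = 0 := by
    show f (zw w1) = 0
    rw [hzw1]
    exact hz1
  have hne1 : ∀ w : ℂ, ‖w‖ ≤ ‖w1‖ → w ≠ 1 := by
    rintro w hw rfl
    rw [norm_one] at hw
    linarith
  have hFd : ∀ w : ℂ, ‖w‖ ≤ ‖w1‖ → DifferentiableAt ℂ F w := fun w hw => Fd hsd (hne1 w hw)
  -- the zero of minimal modulus
  obtain ⟨w0, hw0m, hw0min⟩ : ∃ w0 ∈ closedBall (0 : ℂ) ‖w1‖ ∩ F ⁻¹' {0},
      ∀ w ∈ closedBall (0 : ℂ) ‖w1‖ ∩ F ⁻¹' {0}, ‖w0‖ ≤ ‖w‖ := by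
    have hcomp : IsCompact (closedBall (0 : ℂ) ‖w1‖ ∩ F ⁻¹' {0}) := by
      refine IsCompact.of_isClosed_subset (isCompact_closedBall (0 : ℂ) ‖w1‖) ?_ inter_subset_left
      refine ContinuousOn.preimage_isClosed_of_isClosed (fun w hw => ?_) isClosed_closedBall
        isClosed_singleton
      exact (hFd w (by simpa using hw)).continuousAt.continuousWithinAt
    obtain ⟨w0, h1, h2⟩ := hcomp.exists_isMinOn (f := fun w => ‖w‖)
      ⟨w1, by simp, hF1⟩ continuous_norm.continuousOn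
    exact ⟨w0, h1, fun w hw => h2 hw⟩
  have hw01 : ‖w0‖ ≤ ‖w1‖ := by simpa using hw0m.1
  have hF0 : F w0 = 0 := hw0m.2
  have hFne : ∀ w : ℂ, ‖w‖ < ‖w0‖ → F w ≠ 0 := by
    intro w hw hw'
    have := hw0min w ⟨by simpa using (hw.le.trans hw01), hw'⟩
    linarith
  have hF00 : F 0 ≠ 0 := hhalf
  have hw0ne : w0 ≠ 0 := by
    rintro rfl
    exact hF00 hF0
  have hr0 : 0 < ‖w0‖ := norm_pos_iff.2 hw0ne
  have hU : IsOpen {w : ℂ | w ≠ 1} := isOpen_ne
  have hdF : DifferentiableOn ℂ (deriv F) {w : ℂ | w ≠ 1} :=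
    DifferentiableOn.deriv (fun w hw => (Fd hsd hw).differentiableWithinAt) hU
  set La : ℂ → ℂ := logDeriv F with hLa
  have hLd : DifferentiableOn ℂ La (ball 0 ‖w0‖) := by
    intro w hw
    have hw' : ‖w‖ < ‖w0‖ := by simpa using hw
    have h1 := hne1 w (hw'.le.trans hw01)
    have h2 : DifferentiableAt ℂ (deriv F) w := (hdF w h1).differentiableAt (hU.mem_nhds h1)
    exact (h2.div (Fd hsd h1) (hFne w hw')).differentiableWithinAt
  have hcoef : ∀ k : ℕ, iteratedDeriv k La 0 = (((k.factorial : ℝ) * (lc f (k + 1)).re : ℝ) : ℂ) := by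
    intro k
    have h1 : lc f (k + 1) = iteratedDeriv k La 0 / (k.factorial : ℂ) := rfl
    have h2 : (k.factorial : ℂ) ≠ 0 := by exact_mod_cast k.factorial_ne_zero
    push_cast
    rw [lc_real hS.conj, h1]
    field_simp
  have hsum : ∀ w : ℂ, ‖w‖ < ‖w0‖ →
      HasSum (fun k : ℕ => (((lc f (k + 1)).re : ℝ) : ℂ) * w ^ k) (La w) := by
    intro w hw
    have h1 := hasSum_taylorSeries_on_ball hLd (z := w) (by simpa using hw)
    refine Pool.Agent.H24R2.JP.B1h.hcongr h1 fun k => ?_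
    rw [hcoef]
    have h2 : (k.factorial : ℂ) ≠ 0 := by exact_mod_cast k.factorial_ne_zero
    simp only [smul_eq_mul, sub_zero]
    push_cast
    field_simp
  -- bound on the segment
  obtain ⟨M, hM⟩ : ∃ M : ℝ, ∀ r ∈ Icc (0 : ℝ) ‖w0‖, ‖La (r : ℂ)‖ ≤ M := by
    refine isCompact_Icc.exists_bound_of_continuousOn (f := fun r : ℝ => La (r : ℂ)) ?_
    intro r hr
    have h1 : ((r : ℝ) : ℂ) ≠ 1 := hne1 _ (by
      rw [Complex.norm_real, Real.norm_eq_abs, abs_of_nonneg hr.1]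
      exact hr.2.trans hw01)
    have h2 : ContinuousAt (deriv F) (r : ℂ) :=
      ((hdF _ h1).differentiableAt (hU.mem_nhds h1)).continuousAt
    have h3 : F (r : ℂ) ≠ 0 := by
      rcases hr.1.eq_or_lt with h4 | h4
      · rw [← h4, Complex.ofReal_zero]
        exact hF00
      show f (zw r) ≠ 0
      have e : zw (r : ℂ) = ((1 / (1 - r) - 1 / 2 : ℝ) : ℂ) := by
        unfold zw
        push_cast
        ring
      rw [e]
      apply hS.ne
      rw [Complex.ofReal_re]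
      have h4' : r < 1 := by linarith [hr.2]
      have h5 : 1 < 1 / (1 - r) := by
        rw [lt_div_iff₀ (by linarith)]
        linarith
      linarith
    have h4 : ContinuousAt La (r : ℂ) := h2.div (Fd hsd h1).continuousAt h3
    exact (h4.comp Complex.continuous_ofReal.continuousAt).continuousWithinAt
  have hM0 : 0 ≤ M := (norm_nonneg _).trans (hM 0 ⟨le_rfl, norm_nonneg _⟩)
  have hbd : ∀ w : ℂ, ‖w‖ < ‖w0‖ → ‖deriv F w‖ ≤ M * ‖F w‖ := by
    intro w hw
    have h1 := hsum w hw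
    have h2 := hsum (‖w‖ : ℂ) (by
      rw [Complex.norm_real, Real.norm_eq_abs, abs_of_nonneg (norm_nonneg _)]
      exact hw)
    have h3 := Complex.hasSum_re h2
    have h4 : ∀ k : ℕ, ‖(((lc f (k + 1)).re : ℝ) : ℂ) * w ^ k‖ ≤
        ((((lc f (k + 1)).re : ℝ) : ℂ) * (‖w‖ : ℂ) ^ k).re := by
      intro k
      have h5 := h (k + 1) (by omega)
      rw [← Complex.ofReal_pow, ← Complex.ofReal_mul, Complex.ofReal_re, norm_mul, norm_pow,
        Complex.norm_real, Real.norm_eq_abs, abs_of_nonneg h5]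
    have h5 : ‖La w‖ ≤ (La (‖w‖ : ℂ)).re := by
      have h6 := h1.norm_le_of_bounded h3 h4
      exact h6
    have h6 : ‖La w‖ ≤ M :=
      (h5.trans (Complex.re_le_norm _)).trans (hM ‖w‖ ⟨norm_nonneg _, hw.le⟩)
    have h7 : La w = deriv F w / F w := logDeriv_apply F w
    rw [h7, norm_div, div_le_iff₀ (norm_pos_iff.2 (hFne w hw))] at h6
    exact h6
  refine hF00 (no_zero (M := M) (fun w hw => hFd w (hw.trans hw01)) ?_ hbd hF0 hw0ne)
  have h1 := hne1 w0 hw01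
  exact ((hdF _ h1).differentiableAt (hU.mem_nhds h1)).continuousAt

theorem line_of_nonneg (hS : Sy f) (hhalf : f (zw 0) ≠ 0) (h : ∀ k : ℕ, 1 ≤ k → 0 ≤ (lc f k).re) :
    ∀ z, f z = 0 → z.re = 0 := by
  intro z hz
  have h1 := li_line hS hhalf h z hz
  have h2 := li_line hS hhalf h (-z) (hS.par.zero hz)
  rw [Complex.neg_re] at h2
  linarith

end Pool.Agent.K3h51.Lh
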