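import Pool.Agent.K3h51.Li.RHp
import Pool.Agent.W169.HF.Defs

set_option autoImplicit false

/-!
# Symmetric entire functions of minimal type of order two: products over their zeros
-/

namespace Pool.Agent.K3h51.Lh

open Complex Filter Topology Polynomial Metric
open Pool.Agent.H24R2.JP (had_split had_base)
open Pool.Agent.K3h51.Li (Ap rt rt_sq)
open Pool.Agent.W169.HF (Slow)

theorem lim_aux {M : ℕ → ℝ} {c r : ℝ} (hM : ∀ δ : ℝ, 0 < δ → ∀ᶠ N : ℕ in atTop, M N ≤ δ * ((N : ℝ) + 1))
    (hM0 : ∀ N, 0 ≤ M N) (hr : 0 < r) (hc : 0 ≤ c) {δ : ℝ} (hδ : 0 < δ) :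
    ∀ᶠ N : ℕ in atTop, r < (N : ℝ) + 1 ∧ 2 * (M N + c) * (r / (((N : ℝ) + 1) - r)) < δ := by
  have t1 : Tendsto (fun N : ℕ => (N : ℝ) + 1) atTop atTop :=
    tendsto_atTop_add_const_right _ _ tendsto_natCast_atTop_atTop
  have hη : 0 < δ / (16 * r) := by positivity
  filter_upwards [t1.eventually_ge_atTop (2 * r), t1.eventually_gt_atTop r,
    t1.eventually_gt_atTop (16 * r * c / δ), hM _ hη] with N h1 h2 h3 h4
  refine ⟨h2, ?_⟩
  set m : ℝ := (N : ℝ) + 1 with hm
  have hm0 : 0 < m := by linarith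
  have e2 : r / (m - r) ≤ 2 * r / m := by
    rw [div_le_div_iff₀ (by linarith) hm0]
    nlinarith
  have h5 : c < δ / (16 * r) * m := by
    rw [div_lt_iff₀ hδ] at h3
    rw [div_mul_eq_mul_div, lt_div_iff₀ (by positivity)]
    linarith
  calc 2 * (M N + c) * (r / (m - r)) ≤ 2 * (M N + c) * (2 * r / m) :=
        mul_le_mul_of_nonneg_left e2 (by have := hM0 N; positivity)
    _ ≤ 2 * (δ / (16 * r) * m + δ / (16 * r) * m) * (2 * r / m) := by
        apply mul_le_mul_of_nonneg_right _ (by positivity)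
        linarith
    _ = δ / 2 := by
        field_simp
        ring
    _ < δ := by linarith

/-- Hadamard factorisation by polynomials for functions of order one and minimal type. -/
theorem had2 (f : ℂ → ℂ) (hf : Differentiable ℂ f) (h0 : f 0 ≠ 0)
    (hsym : ∀ x, f ((starRingEnd ℂ) x) = (starRingEnd ℂ) (f x))
    (hb : ∀ δ : ℝ, 0 < δ → ∃ K : ℝ, 0 < K ∧ ∀ x, ‖f x‖ ≤ K * Real.exp (δ * ‖x‖)) :
    ∃ P : ℕ → ℝ[X], (∀ (N : ℕ) (x : ℂ), aeval x (P N) = 0 → f x = 0) ∧
      (∀ (N : ℕ) (x : ℂ), ‖x‖ < (N : ℝ) + 1 → f x = 0 → aeval x (P N) = 0) ∧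
      TendstoLocallyUniformly (fun (N : ℕ) (x : ℂ) => aeval x (P N)) f atTop := by
  have h00 : ((f 0).re : ℂ) = f 0 := by
    apply Complex.conj_eq_iff_re.1
    rw [← hsym, map_zero]
  have hre0 : (f 0).re ≠ 0 := by
    intro h
    apply h0
    rw [← h00, h]
    simp
  -- the maxima
  have hmax : ∀ N : ℕ, ∃ M : ℝ, 0 ≤ M ∧ (∀ w : ℂ, ‖w‖ ≤ 2 * ((N : ℝ) + 1) → ‖f w‖ ≤ Real.exp M) ∧
      ∀ δ K : ℝ, 0 < δ → 0 < K → (∀ x, ‖f x‖ ≤ K * Real.exp (δ * ‖x‖)) →
        M ≤ |Real.log K| + δ * (2 * ((N : ℝ) + 1)) := by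
    intro N
    have hρ : (0 : ℝ) ≤ 2 * ((N : ℝ) + 1) := by positivity
    obtain ⟨w0, hw0, hw0m⟩ := (isCompact_closedBall (0 : ℂ) (2 * ((N : ℝ) + 1))).exists_isMaxOn
      ⟨0, by simpa using hρ⟩ (f := fun w => ‖f w‖) hf.continuous.norm.continuousOn
    refine ⟨Real.log (max 1 ‖f w0‖), Real.log_nonneg (le_max_left _ _), fun w hw => ?_,
      fun δ K hδ hK hb => ?_⟩
    · rw [Real.exp_log (by positivity)]
      exact (hw0m (show w ∈ closedBall (0 : ℂ) (2 * ((N : ℝ) + 1)) by simpa using hw)).trans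
        (le_max_right _ _)
    · rw [Real.log_le_iff_le_exp (by positivity)]
      have hw0' : ‖w0‖ ≤ 2 * ((N : ℝ) + 1) := by simpa using hw0
      have hKe : K ≤ Real.exp |Real.log K| := by
        calc K = Real.exp (Real.log K) := (Real.exp_log hK).symm
          _ ≤ _ := Real.exp_le_exp.2 (le_abs_self _)
      refine max_le ?_ ?_
      · apply Real.one_le_exp
        positivity
      · rw [Real.exp_add]
        refine (hb w0).trans ?_
        refine mul_le_mul hKe (Real.exp_le_exp.2 ?_) (Real.exp_pos _).le (Real.exp_pos _).le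
        exact mul_le_mul_of_nonneg_left hw0' hδ.le
  choose M hM0 hMb hMd using hmax
  have hMo : ∀ δ : ℝ, 0 < δ → ∀ᶠ N : ℕ in atTop, M N ≤ δ * ((N : ℝ) + 1) := by
    intro δ hδ
    obtain ⟨K, hK, hb'⟩ := hb (δ / 4) (by positivity)
    have t1 : Tendsto (fun N : ℕ => (N : ℝ) + 1) atTop atTop :=
      tendsto_atTop_add_const_right _ _ tendsto_natCast_atTop_atTop
    filter_upwards [t1.eventually_ge_atTop (|Real.log K| / (δ / 2))] with N hN
    rw [div_le_iff₀ (by positivity)] at hN
    have := hMd N (δ / 4) K (by positivity) hK hb'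
    linarith
  set c : ℝ := |Real.log ‖f 0‖| with hc
  have main : ∀ N : ℕ, ∃ (P : ℝ[X]) (L : ℂ → ℂ), (∀ w, aeval w P = 0 → f w = 0) ∧
      ∀ w : ℂ, ‖w‖ < (N : ℝ) + 1 → f w = aeval w P * cexp (L w) ∧
        ‖L w‖ ≤ 2 * (M N + c) * (‖w‖ / (((N : ℝ) + 1) - ‖w‖)) := by
    intro N
    have hρ : 0 < (N : ℝ) + 1 := by positivity
    obtain ⟨n, hn⟩ := exists_nat_ge
      (∑ᶠ u, (MeromorphicOn.divisor f (closedBall 0 ((N : ℝ) + 1)) u : ℝ) * 1)
    obtain ⟨P, G, hG, hG0, hGb, hFG, hnz⟩ := had_split (M := M N) hρ n f hf h0 hsym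
      (fun w hw => hMb N w (by simpa using hw)) hn
    obtain ⟨L, hA, hL⟩ := had_base hG hρ (fun u hu => hnz u (ball_subset_closedBall hu))
      (fun w hw => hGb w (ball_subset_closedBall (ball_subset_ball (by linarith) hw)))
    refine ⟨Polynomial.C (f 0).re * P, L, ?_, ?_⟩
    · intro w hw
      rw [map_mul, aeval_C, Complex.coe_algebraMap] at hw
      rw [hFG w]
      rcases mul_eq_zero.1 hw with h | h
      · exact absurd (by exact_mod_cast h) hre0
      · rw [h, zero_mul]
    · intro w hw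
      obtain ⟨h1, h2⟩ := hL w hw
      constructor
      · rw [hFG w, h1, hG0, map_mul, aeval_C, Complex.coe_algebraMap, h00]
        ring
      · refine h2.trans ?_
        apply mul_le_mul_of_nonneg_right _ (div_nonneg (norm_nonneg _) (by linarith))
        rw [hG0]
        have := neg_abs_le (Real.log ‖f 0‖)
        linarith
  choose P L h1 h2 using main
  refine ⟨P, h1, fun N x hx hx0 => ?_, ?_⟩
  · have h := (h2 N x hx).1
    rw [hx0] at h
    rcases mul_eq_zero.1 h.symm with h | h
    · exact h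
    · exact absurd h (Complex.exp_ne_zero _)
  rw [Metric.tendstoLocallyUniformly_iff]
  intro ε hε x
  set r : ℝ := ‖x‖ + 1 with hr
  have hr0 : 0 < r := by positivity
  obtain ⟨B, hB0, hB⟩ : ∃ B : ℝ, 0 < B ∧ ∀ y : ℂ, ‖y‖ ≤ r → ‖f y‖ ≤ B := by
    obtain ⟨B, hB⟩ := (isCompact_closedBall (0 : ℂ) r).exists_bound_of_continuousOn
      hf.continuous.continuousOn
    exact ⟨|B| + 1, by positivity, fun y hy => (hB y (by simpa using hy)).trans
      (by linarith [le_abs_self B])⟩
  refine ⟨ball 0 r, ?_, ?_⟩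
  · apply isOpen_ball.mem_nhds
    simp [hr]
  have hδ : 0 < min 1 (ε / (2 * B)) := by positivity
  filter_upwards [lim_aux hMo hM0 hr0 (abs_nonneg (Real.log ‖f 0‖)) hδ] with N hN
  intro y hy
  have hyr : ‖y‖ < r := by simpa using hy
  obtain ⟨hN1, hN2⟩ := hN
  obtain ⟨h3, h4⟩ := h2 N y (hyr.trans hN1)
  have h5 : ‖y‖ / (((N : ℝ) + 1) - ‖y‖) ≤ r / (((N : ℝ) + 1) - r) := by
    apply div_le_div₀ hr0.le hyr.le (by linarith) (by linarith)
  have h6 : 0 ≤ 2 * (M N + c) := by
    have := hM0 N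
    positivity
  have h7 : ‖L N y‖ < min 1 (ε / (2 * B)) :=
    lt_of_le_of_lt (h4.trans (mul_le_mul_of_nonneg_left h5 h6)) hN2
  have h8 : ‖L N y‖ < 1 := h7.trans_le (min_le_left _ _)
  have h9 : ‖L N y‖ < ε / (2 * B) := h7.trans_le (min_le_right _ _)
  have h10 : aeval y (P N) = f y * cexp (-(L N y)) := by
    rw [h3, mul_assoc, ← Complex.exp_add]
    simp
  rw [dist_eq_norm, h10]
  have h11 : f y - f y * cexp (-(L N y)) = -(f y * (cexp (-(L N y)) - 1)) := by ring
  rw [h11, norm_neg, norm_mul]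
  have h12 : ‖cexp (-(L N y)) - 1‖ ≤ 2 * ‖-(L N y)‖ :=
    Complex.norm_exp_sub_one_le (by rw [norm_neg]; exact h8.le)
  rw [norm_neg] at h12
  have h13 : ‖f y‖ ≤ B := hB y hyr.le
  calc ‖f y‖ * ‖cexp (-(L N y)) - 1‖ ≤ B * (2 * ‖L N y‖) :=
        mul_le_mul h13 h12 (norm_nonneg _) hB0.le
    _ < B * (2 * (ε / (2 * B))) := by
        apply mul_lt_mul_of_pos_left _ hB0
        linarith
    _ = ε := by field_simp

/-- An even entire function is an entire function of the square. -/
theorem even_sq {f : ℂ → ℂ} (hf : Differentiable ℂ f) (he : ∀ z, f (-z) = f z) :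
    ∃ G : ℂ → ℂ, Differentiable ℂ G ∧ ∀ z, f z = G (z ^ 2) := by
  have hG : ∀ z, f z = f (rt (z ^ 2)) := by
    intro z
    rcases sq_eq_sq_iff_eq_or_eq_neg.1 (rt_sq (z ^ 2)) with h | h
    · rw [h]
    · rw [h, he]
  refine ⟨fun x => f (rt x), ?_, hG⟩
  have hrt : ∀ x ∈ slitPlane, DifferentiableAt ℂ rt x := fun x hx => by
    unfold rt
    exact DifferentiableAt.cpow_const differentiableAt_id hx
  have hne : ∀ x : ℂ, x ≠ 0 → DifferentiableAt ℂ (fun x => f (rt x)) x := by
    intro x hx
    by_cases hs : x ∈ slitPlane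
    · exact (hf _).comp x (hrt x hs)
    · have hs' : -x ∈ slitPlane := by
        rw [mem_slitPlane_iff] at hs ⊢
        push Not at hs
        rw [Complex.neg_re, Complex.neg_im, neg_ne_zero]
        rcases hs.1.lt_or_eq with h | h
        · left; linarith
        · exfalso
          apply hx
          apply Complex.ext
          · exact h
          · exact hs.2
      have e : (fun x => f (rt x)) = fun x => f (I * rt (-x)) := by
        funext y
        have h1 := hG (I * rt (-y))
        rw [mul_pow, I_sq, rt_sq] at h1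
        rw [h1]
        congr 2
        ring
      rw [e]
      have h2 : DifferentiableAt ℂ (fun y => rt (-y)) x :=
        (hrt (-x) hs').comp x differentiable_neg.differentiableAt
      exact (hf _).comp x (h2.const_mul I)
  have hc : ContinuousAt (fun x => f (rt x)) 0 := by
    have h0 : rt 0 = 0 := by
      have := rt_sq 0
      exact pow_eq_zero_iff (n := 2) (by norm_num) |>.1 this
    have hrc : ContinuousAt rt 0 := by
      rw [Metric.continuousAt_iff]
      intro ε hε
      refine ⟨ε ^ 2, by positivity, fun {x} hx => ?_⟩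
      rw [h0, dist_zero_right]
      rw [dist_zero_right] at hx
      have h1 : ‖rt x‖ ^ 2 = ‖x‖ := by rw [← norm_pow, rt_sq]
      rw [← h1] at hx
      exact lt_of_pow_lt_pow_left₀ 2 hε.le hx
    exact ContinuousAt.comp_of_eq hf.continuous.continuousAt hrc rfl
  intro x
  rcases eq_or_ne x 0 with rfl | hx
  · refine (Complex.analyticAt_of_differentiable_on_punctured_nhds_of_continuousAt ?_ hc).differentiableAt
    filter_upwards [self_mem_nhdsWithin] with y hy
    exact hne y hy
  · exact hne x hx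

/-- parity -/
def Par (f : ℂ → ℂ) : Prop := (∀ z, f (-z) = f z) ∨ (∀ z, f (-z) = -f z)

theorem split {f : ℂ → ℂ} (hf : Differentiable ℂ f) (hp : Par f) :
    ∃ (e : ℕ) (G : ℂ → ℂ), Differentiable ℂ G ∧ ∀ z, f z = z ^ e * G (z ^ 2) := by
  rcases hp with hp | hp
  · obtain ⟨G, h1, h2⟩ := even_sq hf hp
    exact ⟨0, G, h1, fun z => by rw [pow_zero, one_mul, h2]⟩
  · have h0 : f 0 = 0 := by
      have := hp 0
      rw [neg_zero] at this
      have h2 : (2 : ℂ) * f 0 = 0 := by linear_combination this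
      exact (mul_eq_zero.1 h2).resolve_left two_ne_zero
    have hd : Differentiable ℂ (dslope f 0) := by
      rw [← differentiableOn_univ]
      exact (Complex.differentiableOn_dslope univ_mem).2 hf.differentiableOn
    have hz : ∀ z, f z = z * dslope f 0 z := by
      intro z
      have := sub_smul_dslope f 0 z
      rw [sub_zero, h0, sub_zero, smul_eq_mul] at this
      exact this.symm
    obtain ⟨G, h1, h2⟩ := even_sq hd (fun z => by
      rcases eq_or_ne z 0 with rfl | hne
      · rw [neg_zero]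
      · have e1 := hz z
        have e2 := hz (-z)
        rw [hp, e1] at e2
        have h3 : z * (dslope f 0 (-z) - dslope f 0 z) = 0 := by linear_combination e2
        exact sub_eq_zero.1 ((mul_eq_zero.1 h3).resolve_left hne))
    exact ⟨1, G, h1, fun z => by rw [pow_one, hz z, h2]⟩

/-- symmetric entire functions with zeros in the strip -/
structure Sy (f : ℂ → ℂ) : Prop where
  slow : Slow f
  par : Par f
  conj : ∀ z, f ((starRingEnd ℂ) z) = (starRingEnd ℂ) (f z)
  strip : ∀ z, f z = 0 → |z.re| ≤ 1 / 2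

theorem Sy.ne {f : ℂ → ℂ} (h : Sy f) {z : ℂ} (hz : 1 / 2 < z.re) : f z ≠ 0 := fun h0 => by
  have h1 := h.strip z h0
  have h2 := le_abs_self z.re
  linarith

theorem Sy.diff {f : ℂ → ℂ} (h : Sy f) : Differentiable ℂ f := h.slow.1

theorem ap_of {f : ℂ → ℂ} (hf : Sy f) : ∃ Z c, Ap f Z c := by
  obtain ⟨e, G, hG, hfG⟩ := split hf.diff hf.par
  have hG1 : G 1 ≠ 0 := by
    intro h
    have h1 := hfG 1
    rw [one_pow, one_pow, one_mul, h] at h1
    exact hf.ne (z := 1) (by norm_num) h1
  have hsym : ∀ x, G ((starRingEnd ℂ) x) = (starRingEnd ℂ) (G x) := by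
    have h : (fun x => G ((starRingEnd ℂ) x)) = fun x => (starRingEnd ℂ) (G x) := by
      apply Continuous.ext_on (dense_compl_singleton (0 : ℂ))
        (hG.continuous.comp Complex.continuous_conj) (Complex.continuous_conj.comp hG.continuous)
      intro x hx
      have hz : rt x ≠ 0 := by
        intro h0
        apply hx
        rw [Set.mem_singleton_iff, ← rt_sq x, h0]
        norm_num
      have h1 := hf.conj (rt x)
      rw [hfG, hfG, map_mul, map_pow, ← map_pow (starRingEnd ℂ) (rt x) 2, rt_sq] at h1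
      exact mul_left_cancel₀ (pow_ne_zero _ ((_root_.map_ne_zero _).2 hz)) h1
    exact fun x => congrFun h x
  have hGg : ∀ δ : ℝ, 0 < δ → ∃ K : ℝ, 0 < K ∧ ∀ x, ‖G x‖ ≤ K * Real.exp (δ * ‖x‖) := by
    intro δ hδ
    obtain ⟨K, hK, hKb⟩ := hf.slow.2 δ hδ
    obtain ⟨B, hB⟩ := (isCompact_closedBall (0 : ℂ) 1).exists_bound_of_continuousOn
      hG.continuous.continuousOn
    refine ⟨K + |B|, by positivity, fun x => ?_⟩
    have he : 1 ≤ Real.exp (δ * ‖x‖) := Real.one_le_exp (by positivity)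
    rcases le_total ‖x‖ 1 with hx | hx
    · have h1 : ‖G x‖ ≤ B := hB x (by simpa using hx)
      have h2 := le_abs_self B
      have h3 := abs_nonneg B
      nlinarith
    · have h1 := hKb (rt x)
      have h2 : ‖rt x‖ ^ 2 = ‖x‖ := by rw [← norm_pow, rt_sq]
      have h3 : 1 ≤ ‖rt x‖ := by
        by_contra hc
        push Not at hc
        nlinarith [norm_nonneg (rt x)]
      rw [hfG, norm_mul, norm_pow, rt_sq, h2] at h1
      have h4 : ‖G x‖ ≤ ‖rt x‖ ^ e * ‖G x‖ :=
        le_mul_of_one_le_left (norm_nonneg _) (one_le_pow₀ h3)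
      refine (h4.trans h1).trans ?_
      apply mul_le_mul_of_nonneg_right _ (Real.exp_pos _).le
      linarith [abs_nonneg B]
  obtain ⟨P, hP1, hP2, hP3⟩ := had2 (fun x => G (x + 1))
    (hG.comp (differentiable_id.add_const 1)) (by simpa using hG1)
    (fun x => by
      have e1 : (starRingEnd ℂ) x + 1 = (starRingEnd ℂ) (x + 1) := by simp
      show G ((starRingEnd ℂ) x + 1) = _
      rw [e1, hsym])
    (fun δ hδ => by
      obtain ⟨K, hK, hKb⟩ := hGg δ hδ
      refine ⟨K * Real.exp δ, by positivity, fun x => (hKb (x + 1)).trans ?_⟩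
      rw [mul_assoc, ← Real.exp_add]
      apply mul_le_mul_of_nonneg_left _ hK.le
      apply Real.exp_le_exp.2
      have h1 := norm_add_le x 1
      rw [norm_one] at h1
      nlinarith)
  set p : ℕ → ℂ[X] := fun N => ((P N).map (algebraMap ℝ ℂ)).comp (X - C 1) with hp
  have hpe : ∀ N x, (p N).eval x = aeval (x - 1) (P N) := by
    intro N x
    rw [hp]
    simp only [eval_comp, eval_sub, eval_X, eval_C, eval_map_algebraMap]
  have hroot : ∀ N x, (p N).eval x = 0 → G x = 0 := by
    intro N x hx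
    rw [hpe] at hx
    have := hP1 N _ hx
    simpa using this
  have hroot2 : ∀ (N : ℕ) (x : ℂ), ‖x - 1‖ < (N : ℝ) + 1 → G x = 0 → (p N).eval x = 0 := by
    intro N x h1 h2
    rw [hpe]
    exact hP2 N _ h1 (by simpa using h2)
  have hp0 : ∀ N, p N ≠ 0 := by
    intro N h
    apply hG1
    apply hroot N
    rw [h, eval_zero]
  have hplim : TendstoLocallyUniformly (fun (N : ℕ) (x : ℂ) => (p N).eval x) G atTop := by
    have h1 := hP3.comp (fun x : ℂ => x - 1) (by fun_prop)
    have e1 : ((fun x => G (x + 1)) ∘ fun x : ℂ => x - 1) = G := by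
      funext x
      simp
    rw [e1] at h1
    refine h1.congr (fun N x => ?_)
    simp only [Function.comp_apply, hpe]
  set R : ℕ → Multiset ℂ := fun N => (p N).roots with hR
  have hmemR : ∀ N x, x ∈ R N ↔ (p N).eval x = 0 := by
    intro N x
    rw [hR]
    simp only [mem_roots (hp0 N), IsRoot.def]
  refine ⟨fun N => Multiset.replicate e 0 + ((R N).map rt + (R N).map (fun x => -rt x)),
    fun N => (p N).leadingCoeff, ?_, ?_, ?_, ?_⟩
  · intro N ρ hρ
    rw [hfG]
    rcases Multiset.mem_add.1 hρ with h | h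
    · have h1 := Multiset.eq_of_mem_replicate h
      have h2 : e ≠ 0 := by
        rintro h3
        rw [h3] at h
        simp at h
      rw [h1, zero_pow h2, zero_mul]
    · rcases Multiset.mem_add.1 h with h | h
      · obtain ⟨x, hx, rfl⟩ := Multiset.mem_map.1 h
        rw [rt_sq, hroot N x ((hmemR N x).1 hx), mul_zero]
      · obtain ⟨x, hx, rfl⟩ := Multiset.mem_map.1 h
        rw [neg_sq, rt_sq, hroot N x ((hmemR N x).1 hx), mul_zero]
  · intro ρ hρ
    rw [hfG] at hρ
    rcases mul_eq_zero.1 hρ with h | h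
    · have h1 : ρ = 0 := by
        by_contra hne
        exact (pow_ne_zero _ hne) h
      have h2 : e ≠ 0 := by
        rintro h3
        rw [h3, pow_zero] at h
        exact one_ne_zero h
      refine Eventually.of_forall fun N => ?_
      rw [h1]
      refine Multiset.mem_add.2 (Or.inl ?_)
      exact Multiset.mem_replicate.2 ⟨h2, rfl⟩
    · have h3 : ∀ᶠ N : ℕ in atTop, ‖ρ ^ 2 - 1‖ < (N : ℝ) + 1 := by
        filter_upwards [eventually_ge_atTop ⌈‖ρ ^ 2 - 1‖⌉₊] with N hN
        have := Nat.le_ceil ‖ρ ^ 2 - 1‖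
        have h4 : ((⌈‖ρ ^ 2 - 1‖⌉₊ : ℕ) : ℝ) ≤ N := by exact_mod_cast hN
        linarith
      filter_upwards [h3] with N hN
      have h4 : ρ ^ 2 ∈ R N := (hmemR N _).2 (hroot2 N _ hN h)
      have h5 : ρ ^ 2 = rt (ρ ^ 2) ^ 2 := (rt_sq _).symm
      refine Multiset.mem_add.2 (Or.inr (Multiset.mem_add.2 ?_))
      rcases sq_eq_sq_iff_eq_or_eq_neg.1 h5 with h6 | h6
      · left
        exact Multiset.mem_map.2 ⟨_, h4, h6.symm⟩
      · right
        exact Multiset.mem_map.2 ⟨_, h4, h6.symm⟩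
  · intro N
    rw [Multiset.map_add, Multiset.map_add, Multiset.map_replicate, Multiset.map_map,
      Multiset.map_map, neg_zero]
    congr 1
    rw [add_comm]
    congr 1
    apply Multiset.map_congr rfl
    intro x _
    simp
  · have hprod : ∀ N z, (p N).leadingCoeff * ((Multiset.replicate e 0 +
        ((R N).map rt + (R N).map (fun x => -rt x))).map (fun ρ => z - ρ)).prod =
        z ^ e * (p N).eval (z ^ 2) := by
      intro N z
      rw [Multiset.map_add, Multiset.map_add, Multiset.prod_add, Multiset.prod_add,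
        Multiset.map_replicate, Multiset.prod_replicate, sub_zero, Multiset.map_map,
        Multiset.map_map, ← Multiset.prod_map_mul]
      have h1 := (IsAlgClosed.splits (p N)).eq_prod_roots
      conv_rhs => rw [h1]
      rw [eval_mul, eval_C, eval_multiset_prod, Multiset.map_map]
      have h2 : ((R N).map fun i => ((fun ρ => z - ρ) ∘ rt) i * ((fun ρ => z - ρ) ∘ fun x => -rt x) i) =
          (R N).map ((eval (z ^ 2)) ∘ fun a => X - C a) := by
        apply Multiset.map_congr rfl
        intro x _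
        simp only [Function.comp_apply, eval_sub, eval_X, eval_C]
        have := rt_sq x
        linear_combination -this
      rw [h2]
      ring
    have h1 : TendstoLocallyUniformly (fun (_ : ℕ) (z : ℂ) => z ^ e) (fun z => z ^ e) atTop := by
      rw [Metric.tendstoLocallyUniformly_iff]
      intro ε hε x
      exact ⟨Set.univ, univ_mem, Eventually.of_forall fun N y _ => by simpa using hε⟩
    have h2 := hplim.comp (fun z : ℂ => z ^ 2) (by fun_prop)
    have h3 := h1.mul₀ h2 (by fun_prop) (hG.continuous.comp (by fun_prop))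
    have h4 : ((fun z : ℂ => z ^ e) * (G ∘ fun z => z ^ 2)) = f := by
      funext z
      rw [hfG]
      rfl
    rw [h4] at h3
    refine h3.congr (fun N z => ?_)
    rw [hprod]
    rfl

end Pool.Agent.K3h51.Lh
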