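import Pool.Agent.K3h51.Lh.Ul

set_option autoImplicit false

/-!
# Li coefficients of the derivatives of the L-functions of the class `UR`, uniformly
-/

namespace Pool.Agent.K3h51.Lh

open Complex Filter Topology Metric
open Pool.Agent.W169.HF (Slow heat heat_zero_time)
open Pool.Agent.W355.UN (UL one_le_cond)
open Pool.Agent.TH839.UH (BH main_all)
open Pool.Agent.K3h51.Li (zw)

/-- The scaled `n`-th derivative, centred at the line. -/
noncomputable def sc (X : ℂ → ℂ) (b : ℝ) (n : ℕ) (z : ℂ) : ℂ :=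
  iteratedDeriv n (cen X) (((2 * b : ℝ) : ℂ) * z)

theorem logDeriv_scale (g : ℂ → ℂ) (a z : ℂ) :
    logDeriv (fun z => g (a * z)) z = a * logDeriv g (a * z) := by
  rw [logDeriv_apply, logDeriv_apply, deriv_comp_mul_left, smul_eq_mul, mul_div_assoc]

theorem BH_nonneg : 0 ≤ BH 1 := by
  have h1 := Pool.Agent.TH839.UH.NF.B0_nonneg
  have h2 := Pool.Agent.W355.UN.Bst_nonneg 1
  unfold BH
  linarith

variable {m : ℕ} {N θ : ℝ} {μ : Fin m → ℂ} {X L : ℂ → ℂ} {B : ℝ → ℝ}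

theorem sc_sy (h : UR m B N θ μ X L) {b : ℝ} (hb : 1 / 2 ≤ b) (n : ℕ) : Sy (sc X b n) :=
  (h.sy.iter h.nz n).scale (by linarith)

theorem log_cond_cont (hN : 1 ≤ N) (μ : Fin m → ℂ) :
    Continuous fun y : ℝ => Real.log (W355.UN.cond N μ y) := by
  refine Continuous.log ?_ fun y => ?_
  · unfold W355.UN.cond
    refine continuous_const.mul (continuous_finsetProd _ fun j _ => ?_)
    fun_prop
  · have := one_le_cond hN μ y
    linarith

theorem exists_T (hm : 1 ≤ m) (hN : 1 ≤ N) (hμ : ∀ j, (μ j).im = 0) {C0 T1 : ℝ} {n : ℕ}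
    (hC0 : 0 < C0) (h1 : C0 * (m + Real.log (W355.UN.cond N μ T1)) ≤ n) (hT1 : 0 ≤ T1) :
    ∃ T : ℝ, T1 ≤ T ∧ (n : ℝ) = C0 * (m + Real.log (W355.UN.cond N μ T)) := by
  have hm' : (1 : ℝ) ≤ m := by exact_mod_cast hm
  set T2 : ℝ := max T1 (Real.exp (n / C0)) with hT2
  have h12 : T1 ≤ T2 := le_max_left _ _
  have hbig := cond_big hN hμ (T := T2) (by linarith)
  have h3 : (n : ℝ) / C0 ≤ Real.log (1 + T2) := by
    rw [Real.le_log_iff_exp_le (by linarith)]
    have := le_max_right T1 (Real.exp (n / C0))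
    linarith
  have h4 : (n : ℝ) ≤ C0 * (m + Real.log (W355.UN.cond N μ T2)) := by
    rw [div_le_iff₀ hC0] at h3
    have h5 : Real.log (1 + T2) ≤ m * Real.log (1 + T2) :=
      le_mul_of_one_le_left (Real.log_nonneg (by linarith)) hm'
    have h6 : Real.log (1 + T2) * C0 ≤ (m + Real.log (W355.UN.cond N μ T2)) * C0 :=
      mul_le_mul_of_nonneg_right (by linarith) hC0.le
    linarith
  have hc : ContinuousOn (fun T => C0 * (m + Real.log (W355.UN.cond N μ T))) (Set.Icc T1 T2) :=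
    (continuous_const.mul (continuous_const.add (log_cond_cont hN μ))).continuousOn
  obtain ⟨T, hT, hT'⟩ := intermediate_value_Icc h12 hc (show (n : ℝ) ∈ Set.Icc _ _ from ⟨h1, h4⟩)
  exact ⟨T, hT.1, hT'.symm⟩

/-- **Main theorem**, positivity. -/
theorem main_pos : ∃ C : ℝ, 0 < C ∧ ∀ (m : ℕ) (N θ : ℝ) (μ : Fin m → ℂ) (X L : ℂ → ℂ),
    UR m BH N θ μ X L → ∀ (b : ℝ) (n k : ℕ), 1 / 2 ≤ b → 1 ≤ k →
      C * (m + Real.log (W355.UN.cond N μ (b * Real.sqrt k))) ≤ n →
        iteratedDeriv n X (1 / 2 + b) ≠ 0 ∧ 0 < (lc (sc X b n) k).re := by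
  obtain ⟨C0, hC0, Hz⟩ := main_all (B := BH) BH_nonneg
  obtain ⟨xm, TT, hxm, hTT, HG⟩ := G_bounds (B1 := BH 1) (C0 := C0) BH_nonneg hC0
  obtain ⟨δ, T0, hδ, hT0, HP⟩ := positive xm (by linarith)
  set D : ℝ := 2 * T0 + 2 / Real.sqrt δ + 2 * TT + 40 * (xm + 1) with hD
  have hsδ : 0 < Real.sqrt δ := Real.sqrt_pos.2 hδ
  have hsd : 0 < 2 / Real.sqrt δ := by positivity
  have hD1 : 1 ≤ D := by linarith
  have hlD : 0 ≤ Real.log D := Real.log_nonneg hD1
  refine ⟨C0 * (1 + Real.log D), by positivity, ?_⟩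
  intro m N θ μ X L h b n k hb hk hn
  have hm : (1 : ℝ) ≤ m := by exact_mod_cast h.ul.hm
  have hN := h.ul.hN
  have hk1 : (1 : ℝ) ≤ k := by exact_mod_cast hk
  have hsk : 1 ≤ Real.sqrt k := Real.one_le_sqrt.2 hk1
  have hbk : 1 / 2 ≤ b * Real.sqrt k := by nlinarith
  have hcs := cond_scale hN h.im (y := b * Real.sqrt k) hD1
  have hlc : 0 ≤ Real.log (W355.UN.cond N μ (b * Real.sqrt k)) :=
    Real.log_nonneg (one_le_cond hN μ _)
  have h1 : C0 * (m + Real.log (W355.UN.cond N μ (D * (b * Real.sqrt k)))) ≤ n := by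
    refine le_trans ?_ hn
    rw [mul_assoc]
    refine mul_le_mul_of_nonneg_left ?_ hC0.le
    have : 0 ≤ Real.log D * Real.log (W355.UN.cond N μ (b * Real.sqrt k)) := mul_nonneg hlD hlc
    nlinarith
  obtain ⟨T, hT1, hT2⟩ := exists_T h.ul.hm hN h.im hC0 h1 (by positivity)
  have hb0 : 0 < 2 * b := by linarith
  set Tg : ℝ := T / (2 * b) with hTg
  have hTgb : 2 * b * Tg = T := by rw [hTg]; field_simp
  have hTg1 : D / 2 * Real.sqrt k ≤ Tg := by
    rw [hTg, le_div_iff₀ hb0]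
    linarith
  have hTg2 : D / 2 ≤ Tg := by
    have : D / 2 * 1 ≤ D / 2 * Real.sqrt k := mul_le_mul_of_nonneg_left hsk (by linarith)
    linarith
  have hTT' : Tg ≤ T := by
    rw [← hTgb]
    have : 0 < Tg := by linarith
    nlinarith
  set ℓ : ℝ := m + Real.log (W355.UN.cond N μ T) with hℓ
  have hℓ0 : 0 < ℓ := by
    have := Real.log_nonneg (one_le_cond hN μ T)
    linarith
  obtain ⟨hup, hlo⟩ := HG m N θ μ BH X L le_rfl h T n (by linarith) hT2
  rw [← hℓ] at hup hlo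
  have hsy := sc_sy h hb n
  have hld : ∀ x t : ℝ, (logDeriv (sc X b n) (x + t * I)).re =
      2 * b * (logDeriv (iteratedDeriv n (cen X)) (((2 * b * x : ℝ) : ℂ) +
        ((2 * b * t : ℝ) : ℂ) * I)).re := by
    intro x t
    have e1 := logDeriv_scale (iteratedDeriv n (cen X)) ((2 * b : ℝ) : ℂ) (x + t * I)
    have e2 : (fun z => iteratedDeriv n (cen X) (((2 * b : ℝ) : ℂ) * z)) = sc X b n := rfl
    rw [e2] at e1
    rw [e1, Complex.re_ofReal_mul]
    congr 3
    push_cast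
    ring
  have hz : ∀ ρ : ℂ, sc X b n ρ = 0 → |ρ.im| ≤ Tg → ρ.re = 0 := by
    intro ρ hρ hρT
    have h2 : iteratedDeriv n X (1 / 2 + ((2 * b : ℝ) : ℂ) * ρ) = 0 := by
      rw [← iter_cen]
      exact hρ
    have him : (1 / 2 + ((2 * b : ℝ) : ℂ) * ρ : ℂ).im = 2 * b * ρ.im := by
      rw [Complex.add_im, Complex.im_ofReal_mul]
      simp
    have hre : (1 / 2 + ((2 * b : ℝ) : ℂ) * ρ : ℂ).re = 1 / 2 + 2 * b * ρ.re := by
      rw [Complex.add_re, Complex.re_ofReal_mul]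
      simp
    have h3 := (Hz m N θ μ X L h.ul h.hθ 0 n (1 / 2 + ((2 * b : ℝ) : ℂ) * ρ) le_rfl (by
      rw [zero_mul, add_zero, him, hT2]
      refine mul_le_mul_of_nonneg_left ?_ hC0.le
      have := cond_mono hN h.im (y := 2 * b * ρ.im) (T := T) (by
        rw [abs_mul, abs_of_pos hb0, ← hTgb]
        exact mul_le_mul_of_nonneg_left hρT hb0.le)
      linarith) (by rw [heat_zero_time X h.ul.slow]; exact h2)).1
    rw [hre] at h3
    have h4 : 2 * b * ρ.re = 0 := by linarith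
    exact (mul_eq_zero.1 h4).resolve_left hb0.ne'
  refine ⟨fun h0 => ?_, HP (sc X b n) Tg (2 * b * ℓ) hsy (by linarith) (by positivity) hz ?_ ?_ k hk ?_⟩
  · have h1 := hz (1 / 2) (by
      unfold sc
      rw [iter_cen]
      have e : (1 / 2 + ((2 * b : ℝ) : ℂ) * (1 / 2) : ℂ) = 1 / 2 + b := by
        push_cast
        ring
      rw [e, h0]) (by
      have : ((1 / 2 : ℂ)).im = 0 := by norm_num
      rw [this, abs_zero]
      linarith)
    norm_num at h1
  · intro t ht1 ht2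
    have g1 : xm ≤ 2 * b * xm := by nlinarith
    have g2 : 2 * b * xm ≤ T := by
      rw [← hTgb]
      exact mul_le_mul_of_nonneg_left (by linarith) hb0.le
    have g3 : xm ≤ 2 * b * (10 * xm + 10) := by nlinarith
    have g4 : 2 * b * (10 * xm + 10) ≤ T := by
      rw [← hTgb]
      exact mul_le_mul_of_nonneg_left (by linarith) hb0.le
    have g5 : T / 200 ≤ 2 * b * t := by
      rw [← hTgb, mul_div_assoc]
      exact mul_le_mul_of_nonneg_left ht1 hb0.le
    have g6 : 2 * b * t ≤ T := by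
      rw [← hTgb]
      exact mul_le_mul_of_nonneg_left ht2 hb0.le
    rw [hld, hld]
    constructor
    · have := hlo (2 * b * xm) (2 * b * t) g1 g2 g5 g6
      calc 12 / 25 * (2 * b * ℓ) = 2 * b * (12 / 25 * ℓ) := by ring
        _ ≤ _ := mul_le_mul_of_nonneg_left this hb0.le
    · have := hup (2 * b * (10 * xm + 10)) (2 * b * t) g3 g4 (by
        rw [abs_of_nonneg (by linarith)]
        exact g6)
      calc _ ≤ 2 * b * (13 / 25 * ℓ) := mul_le_mul_of_nonneg_left this hb0.le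
        _ = 13 / 25 * (2 * b * ℓ) := by ring
  · have e := hld Tg 0
    have e2 : (((Tg : ℝ) : ℂ) + ((0 : ℝ) : ℂ) * I) = (Tg : ℂ) := by simp
    rw [e2, hTgb, mul_zero] at e
    rw [e]
    have := hup T 0 (by linarith) le_rfl (by rw [abs_zero]; linarith)
    calc _ ≤ 2 * b * (13 / 25 * ℓ) := mul_le_mul_of_nonneg_left this hb0.le
      _ ≤ 2 * b * ℓ := mul_le_mul_of_nonneg_left (by linarith) hb0.le
  · have h5 : 2 / Real.sqrt δ ≤ D := by linarith
    have h6 : 1 / Real.sqrt δ * Real.sqrt k ≤ Tg := by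
      refine le_trans ?_ hTg1
      apply mul_le_mul_of_nonneg_right _ (by positivity)
      rw [div_le_iff₀ hsδ] at h5
      rw [div_le_iff₀ hsδ]
      linarith
    have h7 : (1 / Real.sqrt δ * Real.sqrt k) ^ 2 ≤ Tg ^ 2 := pow_le_pow_left₀ (by positivity) h6 2
    have e : (1 / Real.sqrt δ * Real.sqrt k) ^ 2 = k / δ := by
      rw [mul_pow, div_pow, Real.sq_sqrt hδ.le, Real.sq_sqrt (by linarith)]
      ring
    rw [e, div_le_iff₀ hδ] at h7
    linarith

/-- All zeros on the line: all Li coefficients are nonnegative. -/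
theorem nonneg_of (h : UR m B N θ μ X L) (hl : ∀ s, X s = 0 → s.re = 1 / 2) {b : ℝ}
    (hb : 1 / 2 ≤ b) (n k : ℕ) : 0 ≤ (lc (sc X b n) k).re := by
  refine nonneg_of_line (sc_sy h hb n) (fun ρ hρ => ?_) k
  have h1 := line_iter h.sy h.nz (fun z hz => by
    have := hl _ hz
    have e : (1 / 2 + z : ℂ).re = 1 / 2 + z.re := by simp
    rw [e] at this
    linarith) n _ hρ
  rw [Complex.re_ofReal_mul] at h1
  exact (mul_eq_zero.1 h1).resolve_left (by linarith)

/-- The criterion. -/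
theorem line_of (h : UR m B N θ μ X L) {b : ℝ} (hb : 1 / 2 ≤ b) (h0 : X (1 / 2 + b) ≠ 0)
    (hk : ∀ k : ℕ, 1 ≤ k → 0 ≤ (lc (sc X b 0) k).re) : ∀ s, X s = 0 → s.re = 1 / 2 := by
  intro s hs
  have hb0 : ((2 * b : ℝ) : ℂ) ≠ 0 := by
    have : (2 * b : ℝ) ≠ 0 := by linarith
    exact_mod_cast this
  have h1 := line_of_nonneg (sc_sy h hb 0) (by
    rw [zw_zero]
    unfold sc cen
    rw [iteratedDeriv_zero]
    have e : (1 / 2 + ((2 * b : ℝ) : ℂ) * ((1 / 2 : ℝ) : ℂ) : ℂ) = 1 / 2 + b := by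
      push_cast
      ring
    rw [e]
    exact h0) hk ((s - 1 / 2) / ((2 * b : ℝ) : ℂ)) (by
    unfold sc cen
    rw [iteratedDeriv_zero, mul_div_cancel₀ _ hb0, add_sub_cancel]
    exact hs)
  rw [Complex.div_ofReal_re, div_eq_zero_iff] at h1
  have e : (s - 1 / 2 : ℂ).re = s.re - 1 / 2 := by simp
  rw [e] at h1
  rcases h1 with h1 | h1
  · linarith
  · linarith

end Pool.Agent.K3h51.Lh
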