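import Pool.Agent.K3h51.Lh.Gen
import Pool.Agent.K3h51.Li.Pos

set_option autoImplicit false

/-!
# Positivity of the Li coefficients of a symmetric function with many zeros on the line
-/

namespace Pool.Agent.K3h51.Lh

open Complex Filter Topology Metric
open Pool.Agent.K3h51.Li (Ap gs As pr Ss zw uu EE gs_lim gs_re as_nonneg as_le le_as
  Strp Ss_pair EE_nonneg EE_far EE_line Th Th_bound Th_lip phase)

/-- number of elements of a window -/
noncomputable def cnt (Z : Multiset ℂ) (t R : ℝ) : ℝ :=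
  (Z.map fun ρ => if |ρ.im - t| ≤ R then (1 : ℝ) else 0).sum

theorem cnt_nonneg (Z : Multiset ℂ) (t R : ℝ) : 0 ≤ cnt Z t R := by
  unfold cnt
  refine Multiset.sum_nonneg fun x hx => ?_
  obtain ⟨ρ, _, rfl⟩ := Multiset.mem_map.1 hx
  split_ifs <;> norm_num

/-- the elements of a window, counted by the logarithmic derivatives at two points -/
theorem cnt_lower {Z : Multiset ℂ} (hS : Strp Z) {x1 x2 t R : ℝ} (h1 : 2 ≤ x1) (h12 : x1 ≤ x2)
    (hR : x2 - x1 ≤ R) :
    (gs Z (x1 + t * I)).re / (x1 + 1 / 2) - 4 * ((gs Z (x2 + t * I)).re / (x2 - 1 / 2)) ≤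
      cnt Z t R := by
  set z1 : ℂ := x1 + t * I with hz1
  set z2 : ℂ := x2 + t * I with hz2
  have r1 : z1.re = x1 := by simp [hz1]
  have r2 : z2.re = x2 := by simp [hz2]
  have i1 : z1.im = t := by simp [hz1]
  have i2 : z2.im = t := by simp [hz2]
  have a1 := le_as hS z1
  have a2 := as_le hS z2
  rw [r1] at a1
  rw [r2] at a2
  have a3 : As Z z1 ≤ cnt Z t R + 4 * As Z z2 := by
    unfold As cnt
    rw [← Multiset.sum_map_mul_left, ← Multiset.sum_map_add]
    refine Multiset.sum_map_le_sum_map _ _ fun ρ hρ => ?_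
    have b0 : 0 ≤ 4 * (1 / ‖z2 - ρ‖ ^ 2) := by positivity
    have b1 : 1 ≤ ‖z1 - ρ‖ := by
      have c1 := Complex.re_le_norm (z1 - ρ)
      rw [Complex.sub_re, r1] at c1
      have c2 := (abs_le.1 (hS ρ hρ)).2
      linarith
    split_ifs with hw
    · have : 1 / ‖z1 - ρ‖ ^ 2 ≤ 1 := by
        rw [div_le_one (by positivity)]
        exact one_le_pow₀ b1
      linarith
    · push Not at hw
      have b2 : R < ‖z1 - ρ‖ := by
        have := Complex.abs_im_le_norm (z1 - ρ)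
        rw [Complex.sub_im, i1, abs_sub_comm] at this
        linarith
      have b3 : ‖z2 - ρ‖ ≤ 2 * ‖z1 - ρ‖ := by
        have e : z2 - ρ = (z1 - ρ) + ((x2 - x1 : ℝ) : ℂ) := by
          rw [hz1, hz2]
          push_cast
          ring
        rw [e]
        refine (norm_add_le _ _).trans ?_
        rw [Complex.norm_real, Real.norm_eq_abs, abs_of_nonneg (by linarith)]
        linarith
      have b4 : 0 < ‖z2 - ρ‖ := by
        have c1 := Complex.re_le_norm (z2 - ρ)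
        rw [Complex.sub_re, r2] at c1
        have c2 := (abs_le.1 (hS ρ hρ)).2
        linarith
      have b5 : ‖z2 - ρ‖ ^ 2 ≤ 4 * ‖z1 - ρ‖ ^ 2 := by nlinarith
      have b6 : 0 < ‖z1 - ρ‖ ^ 2 := by positivity
      rw [zero_add, mul_one_div, div_le_div_iff₀ b6 (by positivity)]
      linarith
  have c1 : (gs Z z1).re / (x1 + 1 / 2) ≤ As Z z1 := by
    rw [div_le_iff₀ (by linarith)]
    linarith
  have c2 : As Z z2 ≤ (gs Z z2).re / (x2 - 1 / 2) := by
    rw [le_div_iff₀ (by linarith)]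
    linarith
  linarith

/-- lower bound for the sum over all elements by windows -/
theorem sum_lower2 {Z : Multiset ℂ} {T : ℝ} {k : ℕ} (hS : Strp Z)
    (hline : ∀ ρ ∈ Z, |ρ.im| ≤ T → ρ.re = 0) (hT : 1 ≤ T) (hk : (k : ℝ) ≤ T ^ 2)
    {ι : Type} (s : Finset ι) (t : ι → ℝ) (R v : ℝ)
    (hdisj : ∀ i ∈ s, ∀ j ∈ s, i ≠ j → ∀ γ : ℝ, |γ - t i| ≤ R → ¬ |γ - t j| ≤ R)
    (hval : ∀ i ∈ s, ∀ γ : ℝ, |γ - t i| ≤ R → |γ| ≤ T ∧ v ≤ EE k (I * γ)) :
    v * ∑ i ∈ s, cnt Z (t i) R - 5 * k ^ 2 / (2 * T ^ 2) * As Z T ≤ (Z.map (EE k)).sum := by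
  set F : ℂ → ℝ := fun ρ => 5 * k ^ 2 / (2 * T ^ 2) * (1 / ‖(T : ℂ) - ρ‖ ^ 2) with hF
  have hF0 : ∀ ρ, 0 ≤ F ρ := fun ρ => by rw [hF]; positivity
  have hEF : ∀ ρ ∈ Z, 0 ≤ EE k ρ + F ρ := by
    intro ρ hρ
    rcases le_or_gt |ρ.im| T with h | h
    · exact add_nonneg (EE_nonneg k (hline ρ hρ h)) (hF0 ρ)
    · have h1 := EE_far (hS ρ hρ) hT hk h.le
      have h2 : (k : ℝ) ^ 2 / (2 * ρ.im ^ 4) ≤ F ρ := by
        have e : ‖(T : ℂ) - ρ‖ ^ 2 = (T - ρ.re) ^ 2 + ρ.im ^ 2 := by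
          rw [← Complex.normSq_eq_norm_sq, Complex.normSq_apply]
          simp
          ring
        obtain ⟨a1, a2⟩ := abs_le.1 (hS ρ hρ)
        have hTsq : T ^ 2 ≤ ρ.im ^ 2 := by
          rw [← sq_abs ρ.im]
          exact pow_le_pow_left₀ (by linarith) h.le 2
        have himp : 1 ≤ ρ.im ^ 2 := by nlinarith
        have hd : ‖(T : ℂ) - ρ‖ ^ 2 ≤ 5 * ρ.im ^ 2 := by
          rw [e]
          nlinarith
        have hd0 : 0 < ‖(T : ℂ) - ρ‖ ^ 2 := by
          rw [e]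
          nlinarith [sq_nonneg (T - ρ.re)]
        rw [hF]
        simp only
        have e2 : 5 * (k : ℝ) ^ 2 / (2 * T ^ 2) * (1 / ‖(T : ℂ) - ρ‖ ^ 2) =
            (k : ℝ) ^ 2 * (5 / (2 * T ^ 2 * ‖(T : ℂ) - ρ‖ ^ 2)) := by
          field_simp
        have e3 : (k : ℝ) ^ 2 / (2 * ρ.im ^ 4) = (k : ℝ) ^ 2 * (1 / (2 * ρ.im ^ 4)) := by ring
        rw [e2, e3]
        refine mul_le_mul_of_nonneg_left ?_ (by positivity)
        have him4 : 0 < ρ.im ^ 4 := by
          have e4 : ρ.im ^ 4 = (ρ.im ^ 2) ^ 2 := by ring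
          rw [e4]
          exact pow_pos (by linarith) 2
        rw [div_le_div_iff₀ (by linarith) (by positivity)]
        have : T ^ 2 * ‖(T : ℂ) - ρ‖ ^ 2 ≤ ρ.im ^ 2 * (5 * ρ.im ^ 2) :=
          mul_le_mul hTsq hd hd0.le (by positivity)
        nlinarith
      linarith
  have h1 : (Z.map fun ρ => EE k ρ + F ρ).sum =
      (Z.map (EE k)).sum + 5 * k ^ 2 / (2 * T ^ 2) * As Z T := by
    rw [Multiset.sum_map_add]
    congr 1
    unfold As
    rw [← Multiset.sum_map_mul_left]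
  have h2 : v * ∑ i ∈ s, cnt Z (t i) R ≤ (Z.map fun ρ => EE k ρ + F ρ).sum := by
    have e : v * ∑ i ∈ s, cnt Z (t i) R =
        (Z.map fun ρ => v * ∑ i ∈ s, if |ρ.im - t i| ≤ R then (1 : ℝ) else 0).sum := by
      rw [Multiset.sum_map_mul_left]
      congr 1
      unfold cnt
      induction Z using Multiset.induction_on with
      | empty => simp
      | cons a Z ih =>
        have ih' := ih (fun ρ hρ => hS ρ (Multiset.mem_cons_of_mem hρ))
          (fun ρ hρ => hline ρ (Multiset.mem_cons_of_mem hρ))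
          (fun ρ hρ => hEF ρ (Multiset.mem_cons_of_mem hρ))
          (by
            rw [Multiset.sum_map_add]
            congr 1
            unfold As
            rw [← Multiset.sum_map_mul_left])
        simp only [Multiset.map_cons, Multiset.sum_cons, Finset.sum_add_distrib]
        rw [ih']
    rw [e]
    refine Multiset.sum_map_le_sum_map _ _ fun ρ hρ => ?_
    by_cases hex : ∃ i ∈ s, |ρ.im - t i| ≤ R
    · obtain ⟨i, hi, hi2⟩ := hex
      obtain ⟨hT', hv'⟩ := hval i hi ρ.im hi2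
      have hre := hline ρ hρ hT'
      have hρe : I * (ρ.im : ℂ) = ρ := by
        apply Complex.ext
        · simp [hre]
        · simp
      rw [hρe] at hv'
      have hs : ∑ j ∈ s, (if |ρ.im - t j| ≤ R then (1 : ℝ) else 0) = 1 := by
        rw [Finset.sum_eq_single_of_mem i hi, if_pos hi2]
        intro j hj hji
        rw [if_neg (hdisj i hi j hj hji.symm ρ.im hi2)]
      rw [hs, mul_one]
      linarith [hF0 ρ]
    · push Not at hex
      have hs : ∑ j ∈ s, (if |ρ.im - t j| ≤ R then (1 : ℝ) else 0) = 0 := by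
        refine Finset.sum_eq_zero fun j hj => ?_
        rw [if_neg (not_le.2 (hex j hj))]
      rw [hs, mul_zero]
      exact hEF ρ hρ
  linarith

/-- lower bound for the Li coefficient -/
theorem lc_lower2 {f : ℂ → ℂ} (hf : Sy f) {k : ℕ} {T : ℝ} (hk1 : 1 ≤ k) (hT : 10 ≤ T)
    (hk : (k : ℝ) ≤ T ^ 2) (hline : ∀ ρ, f ρ = 0 → |ρ.im| ≤ T → ρ.re = 0)
    {ι : Type} (s : Finset ι) (t : ι → ℝ) {x1 x2 R v η : ℝ} (hv : 0 ≤ v)
    (h1 : 2 ≤ x1) (h12 : x1 ≤ x2) (hR : x2 - x1 ≤ R)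
    (hwin : ∀ i ∈ s, η ≤ (logDeriv f (x1 + t i * I)).re / (x1 + 1 / 2) -
      4 * ((logDeriv f (x2 + t i * I)).re / (x2 - 1 / 2)))
    (hdisj : ∀ i ∈ s, ∀ j ∈ s, i ≠ j → ∀ γ : ℝ, |γ - t i| ≤ R → ¬ |γ - t j| ≤ R)
    (hval : ∀ i ∈ s, ∀ γ : ℝ, |γ - t i| ≤ R → |γ| ≤ T ∧ v ≤ EE k (I * γ)) :
    1 / 2 * (v * (s.card * η)) - 5 * k ^ 2 / (2 * T ^ 3) * (logDeriv f T).re ≤ (lc f k).re := by
  obtain ⟨Z, c, h⟩ := ap_of hf
  have h0 : f (zw 0) ≠ 0 := fun h1 => by
    have h2 := hline _ h1 (by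
      rw [zw_zero, Complex.ofReal_im, abs_zero]
      linarith)
    rw [zw_zero, Complex.ofReal_re] at h2
    norm_num at h2
  have g1 := (Complex.continuous_re.tendsto _).comp (lc_lim h h0 k)
  have hTr : ((T : ℝ) : ℂ).re = T := Complex.ofReal_re T
  have g2 := (Complex.continuous_re.tendsto _).comp
    (gs_lim h (hf.ne (z := (T : ℂ)) (by rw [hTr]; linarith)))
  have g3 : Tendsto (fun N => 1 / 2 * (v * ∑ i ∈ s, ((gs (Z N) (x1 + t i * I)).re / (x1 + 1 / 2) -
      4 * ((gs (Z N) (x2 + t i * I)).re / (x2 - 1 / 2)))) -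
      5 * k ^ 2 / (2 * T ^ 3) * (gs (Z N) T).re)
      atTop (𝓝 (1 / 2 * (v * ∑ i ∈ s, ((logDeriv f (x1 + t i * I)).re / (x1 + 1 / 2) -
      4 * ((logDeriv f (x2 + t i * I)).re / (x2 - 1 / 2)))) -
      5 * k ^ 2 / (2 * T ^ 3) * (logDeriv f T).re)) := by
    refine Tendsto.sub (Tendsto.const_mul _ (Tendsto.const_mul _ (tendsto_finsetSum _
      fun i _ => ?_))) (g2.const_mul _)
    have a1 := (Complex.continuous_re.tendsto _).comp
      (gs_lim h (hf.ne (z := x1 + t i * I) (by simp; linarith)))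
    have a2 := (Complex.continuous_re.tendsto _).comp
      (gs_lim h (hf.ne (z := x2 + t i * I) (by simp; linarith)))
    exact (a1.div_const _).sub ((a2.div_const _).const_mul 4)
  have g4 : 1 / 2 * (v * ∑ i ∈ s, ((logDeriv f (x1 + t i * I)).re / (x1 + 1 / 2) -
      4 * ((logDeriv f (x2 + t i * I)).re / (x2 - 1 / 2)))) -
      5 * k ^ 2 / (2 * T ^ 3) * (logDeriv f T).re ≤ (lc f k).re := by
    refine le_of_tendsto_of_tendsto' g3 g1 fun N => ?_
    have hst := strp hf h N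
    have h5 := sum_lower2 (k := k) hst (fun ρ hρ => hline ρ (h.zero N ρ hρ)) (by linarith) hk
      s t R v hdisj hval
    have h6 := Ss_pair (h.neg N) (k - 1)
    rw [show k - 1 + 1 = k by omega] at h6
    simp only [Function.comp_apply]
    rw [h6]
    have h7 := as_le hst (T : ℂ)
    rw [hTr] at h7
    have h8 := as_nonneg (Z N) (T : ℂ)
    have h9 : T / 2 * As (Z N) T ≤ (gs (Z N) T).re := by
      refine le_trans ?_ h7
      exact mul_le_mul_of_nonneg_right (by linarith) h8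
    have h10 : 5 * (k : ℝ) ^ 2 / (4 * T ^ 2) * As (Z N) T ≤
        5 * k ^ 2 / (2 * T ^ 3) * (gs (Z N) T).re := by
      have e : 5 * (k : ℝ) ^ 2 / (4 * T ^ 2) * As (Z N) T =
          5 * k ^ 2 / (2 * T ^ 3) * (T / 2 * As (Z N) T) := by
        field_simp
        ring
      rw [e]
      exact mul_le_mul_of_nonneg_left h9 (by positivity)
    have e2 : 5 * (k : ℝ) ^ 2 / (2 * T ^ 2) * As (Z N) T =
        2 * (5 * (k : ℝ) ^ 2 / (4 * T ^ 2) * As (Z N) T) := by
      field_simp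
      ring
    have h11 : v * ∑ i ∈ s, ((gs (Z N) (x1 + t i * I)).re / (x1 + 1 / 2) -
        4 * ((gs (Z N) (x2 + t i * I)).re / (x2 - 1 / 2))) ≤ v * ∑ i ∈ s, cnt (Z N) (t i) R :=
      mul_le_mul_of_nonneg_left (Finset.sum_le_sum fun i _ => cnt_lower hst h1 h12 hR) hv
    linarith
  refine le_trans ?_ g4
  have h12' : (s.card : ℝ) * η ≤ ∑ i ∈ s, ((logDeriv f (x1 + t i * I)).re / (x1 + 1 / 2) -
      4 * ((logDeriv f (x2 + t i * I)).re / (x2 - 1 / 2))) := by
    have := Finset.card_nsmul_le_sum s _ η hwin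
    rwa [nsmul_eq_mul] at this
  have := mul_le_mul_of_nonneg_left h12' hv
  linarith

end Pool.Agent.K3h51.Lh
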