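import Pool.Agent.K3h51.Lh.Pos

set_option autoImplicit false

/-!
# Positivity of the Li coefficients: the abstract theorem
-/

namespace Pool.Agent.K3h51.Lh

open Complex Filter Topology Metric
open Pool.Agent.K3h51.Li (EE EE_line Th Th_bound Th_lip phase)

theorem win_num {x1 L a b : ℝ} (hx1 : 2 ≤ x1) (hL : 0 < L) (ha : 12 / 25 * L ≤ a)
    (hb : b ≤ 13 / 25 * L) :
    1 / (4 * (x1 + 1 / 2)) * L ≤ a / (x1 + 1 / 2) - 4 * (b / (10 * x1 + 10 - 1 / 2)) := by
  have h0 : 0 < x1 + 1 / 2 := by linarith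
  have h1 : 0 < 10 * x1 + 10 - 1 / 2 := by linarith
  have e1 : 12 / 25 * L / (x1 + 1 / 2) ≤ a / (x1 + 1 / 2) := div_le_div_of_nonneg_right ha h0.le
  have e2 : b / (10 * x1 + 10 - 1 / 2) ≤ 13 / 250 * L / (x1 + 1 / 2) := by
    rw [div_le_div_iff₀ h1 h0]
    have : b * (x1 + 1 / 2) ≤ 13 / 25 * L * (x1 + 1 / 2) := mul_le_mul_of_nonneg_right hb h0.le
    nlinarith
  have e3 : 1 / (4 * (x1 + 1 / 2)) * L = 1 / 4 * L / (x1 + 1 / 2) := by
    field_simp
  rw [e3]
  have e4 : 1 / 4 * L / (x1 + 1 / 2) ≤ 12 / 25 * L / (x1 + 1 / 2) - 4 * (13 / 250 * L / (x1 + 1 / 2)) := by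
    rw [← mul_div_assoc, ← sub_div]
    apply div_le_div_of_nonneg_right _ h0.le
    linarith
  linarith

/-- The abstract theorem. -/
theorem positive (x1 : ℝ) (hx1 : 2 ≤ x1) : ∃ δ T0 : ℝ, 0 < δ ∧ 1 ≤ T0 ∧
    ∀ (f : ℂ → ℂ) (T L : ℝ), Sy f → T0 ≤ T → 0 < L →
      (∀ ρ, f ρ = 0 → |ρ.im| ≤ T → ρ.re = 0) →
      (∀ t : ℝ, T / 200 ≤ t → t ≤ T → 12 / 25 * L ≤ (logDeriv f (x1 + t * I)).re ∧
        (logDeriv f (((10 * x1 + 10 : ℝ) : ℂ) + t * I)).re ≤ 13 / 25 * L) →
      (logDeriv f T).re ≤ L →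
      ∀ k : ℕ, 1 ≤ k → (k : ℝ) ≤ δ * T ^ 2 → 0 < (lc f k).re := by
  set R : ℝ := 9 * x1 + 10 with hR
  set h0 : ℝ := 1 / (4 * (x1 + 1 / 2)) with hh0
  have hR0 : 0 < R := by rw [hR]; linarith
  have hh : 0 < h0 := by rw [hh0]; positivity
  have hh1 : h0 ≤ 1 := by
    rw [hh0, div_le_one (by linarith)]
    linarith
  refine ⟨min (1 / (10000 * R)) (h0 / 5), max (100 / h0) (100000 + 1000 * R), by positivity,
    le_trans (by linarith) (le_max_right _ _), ?_⟩
  intro f T L hf hT0 hL hline hwin hGT k hk1 hk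
  have hT1 : 100000 + 1000 * R ≤ T := (le_max_right _ _).trans hT0
  have hT2 : 100 / h0 ≤ T := (le_max_left _ _).trans hT0
  have hT : 100000 < T := by linarith
  have hT0' : 0 < T := by linarith
  have hk0 : (1 : ℝ) ≤ k := by exact_mod_cast hk1
  have hkR : (k : ℝ) * (10000 * R) ≤ T ^ 2 := by
    have h1 : (k : ℝ) ≤ 1 / (10000 * R) * T ^ 2 :=
      hk.trans (mul_le_mul_of_nonneg_right (min_le_left _ _) (by positivity))
    rw [div_mul_eq_mul_div, one_mul, le_div_iff₀ (by positivity)] at h1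
    exact h1
  have hkh : 5 * (k : ℝ) ≤ h0 * T ^ 2 := by
    have h1 : (k : ℝ) ≤ h0 / 5 * T ^ 2 :=
      hk.trans (mul_le_mul_of_nonneg_right (min_le_right _ _) (by positivity))
    linarith
  have hkT2 : (k : ℝ) ≤ T ^ 2 := by
    have : (k : ℝ) * 1 ≤ k * (10000 * R) :=
      mul_le_mul_of_nonneg_left (by rw [hR]; linarith) (by linarith)
    linarith
  have hw' : ∀ t : ℝ, T / 200 ≤ t → t ≤ T → h0 * L ≤
      (logDeriv f (x1 + t * I)).re / (x1 + 1 / 2) -
        4 * ((logDeriv f (((10 * x1 + 10 : ℝ) : ℂ) + t * I)).re / ((10 * x1 + 10 : ℝ) - 1 / 2)) := by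
    intro t h1 h2
    obtain ⟨a, b⟩ := hwin t h1 h2
    exact win_num hx1 hL a b
  have hR1 : (10 * x1 + 10 : ℝ) - x1 ≤ R := by rw [hR]; linarith
  have hneg : 5 * (k : ℝ) ^ 2 / (2 * T ^ 3) * (logDeriv f T).re ≤ 5 * (k : ℝ) ^ 2 / (2 * T ^ 3) * L :=
    mul_le_mul_of_nonneg_left hGT (by positivity)
  have hp3 := Real.pi_gt_three
  have hp4 := Real.pi_lt_d2
  rcases le_or_gt (k : ℝ) T with hkk | hkk
  · -- small k
    have hLow := lc_lower2 hf hk1 (by linarith) hkT2 hline (Finset.univ : Finset Unit)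
      (fun _ => 3 / 4 * T) (x1 := x1) (x2 := 10 * x1 + 10) (R := R)
      (v := 2 / 5 * (k / (2 * T)) ^ 2) (η := h0 * L) (by positivity) hx1 (by linarith) hR1
      (fun i _ => hw' _ (by linarith) (by linarith))
      (fun i _ j _ hij => absurd (Subsingleton.elim i j) hij)
      (fun i _ γ hγ => by
        obtain ⟨h3, h4⟩ := abs_le.1 hγ
        have hγ1 : T / 2 ≤ γ := by linarith
        have hγ2 : γ ≤ T := by linarith
        have hγ0 : 0 < γ := by linarith
        refine ⟨by rw [abs_of_pos hγ0]; exact hγ2, ?_⟩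
        rw [EE_line k hγ0]
        obtain ⟨h6, h7⟩ := Th_bound (γ := γ) (by linarith)
        have h8 : 1 / (2 * T) ≤ Th γ := by
          refine le_trans ?_ h6
          apply div_le_div_of_nonneg_left (by norm_num) (by linarith) (by linarith)
        have h9 : Th γ ≤ 2 / T := by
          refine h7.trans ?_
          rw [div_le_div_iff₀ hγ0 hT0']
          linarith
        have hx1' : k / (2 * T) ≤ k * Th γ := by
          have : (k : ℝ) / (2 * T) = k * (1 / (2 * T)) := by ring
          rw [this]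
          exact mul_le_mul_of_nonneg_left h8 (by linarith)
        have hx0 : 0 ≤ (k : ℝ) / (2 * T) := by positivity
        have hx2 : k * Th γ ≤ 2 := by
          calc (k : ℝ) * Th γ ≤ k * (2 / T) := mul_le_mul_of_nonneg_left h9 (by linarith)
            _ = 2 * (k / T) := by ring
            _ ≤ 2 * 1 := by
                apply mul_le_mul_of_nonneg_left _ (by norm_num)
                rw [div_le_one hT0']
                exact hkk
            _ = 2 := by norm_num
        have h10 := Real.cos_le_one_sub_mul_cos_sq (x := k * Th γ) (by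
          rw [abs_of_nonneg (by linarith)]
          linarith)
        have h11 : 1 / 5 * ((k : ℝ) / (2 * T)) ^ 2 ≤ 2 / Real.pi ^ 2 * (k * Th γ) ^ 2 := by
          have h12 : 1 / 5 ≤ 2 / Real.pi ^ 2 := by
            rw [div_le_div_iff₀ (by norm_num) (by positivity)]
            nlinarith
          have h13 : ((k : ℝ) / (2 * T)) ^ 2 ≤ (k * Th γ) ^ 2 := pow_le_pow_left₀ hx0 hx1' 2
          exact mul_le_mul h12 h13 (by positivity) (by positivity)
        linarith)
    rw [Finset.card_univ, Fintype.card_unit, Nat.cast_one, one_mul] at hLow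
    have h14 : 5 * (k : ℝ) ^ 2 / (2 * T ^ 3) * L < 1 / 2 * (2 / 5 * (k / (2 * T)) ^ 2 * (h0 * L)) := by
      have e1 : 1 / 2 * (2 / 5 * ((k : ℝ) / (2 * T)) ^ 2 * (h0 * L)) =
          5 * (k : ℝ) ^ 2 / (2 * T ^ 3) * L * (h0 * T / 50) := by
        field_simp
        ring
      rw [e1]
      have h15 : 1 < h0 * T / 50 := by
        rw [div_le_iff₀ hh] at hT2
        rw [lt_div_iff₀ (by norm_num)]
        linarith
      have h16 : 0 < 5 * (k : ℝ) ^ 2 / (2 * T ^ 3) * L := by positivity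
      nlinarith
    linarith
  · -- large k
    set y : ℝ := k / T with hy
    have hy1 : 1 < y := by rw [hy, lt_div_iff₀ hT0']; linarith
    set M : ℕ := ⌈y⌉₊ with hM
    have hM1 : y ≤ M := Nat.le_ceil y
    have hM2 : (M : ℝ) < y + 1 := Nat.ceil_lt_add_one (by linarith)
    have hkp : (0 : ℝ) < k := by linarith
    -- phases
    have hph : ∀ i : ℕ, i < M → ∃ γs : ℝ, T / 70 ≤ γs ∧ γs ≤ T / 2 ∧
        k * Th γs = Real.pi * (2 * (M + i) + 1) := by
      intro i hi
      have hi' : (i : ℝ) + 1 ≤ M := by exact_mod_cast hi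
      have hi0 : (0 : ℝ) ≤ i := Nat.cast_nonneg i
      set φ : ℝ := Real.pi * (2 * (M + i) + 1) with hφ
      have hφ1 : 2 * y ≤ φ := by rw [hφ]; nlinarith
      have hφ2 : φ ≤ 35 * y := by
        have : 2 * ((M : ℝ) + i) + 1 ≤ 4 * y + 3 := by linarith
        rw [hφ]
        nlinarith
      have hφ0 : 0 < φ := by linarith
      set x : ℝ := φ / k with hx
      have hkx : k * x = φ := by rw [hx]; field_simp
      have hyT : y * T = k := by rw [hy]; field_simp
      have hx1' : x ≤ 35 / T := by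
        rw [hx, div_le_div_iff₀ hkp hT0']
        calc φ * T ≤ 35 * y * T := mul_le_mul_of_nonneg_right hφ2 hT0'.le
          _ = 35 * k := by rw [mul_assoc, hyT]
      have hx2 : 2 / T ≤ x := by
        rw [hx, div_le_div_iff₀ hT0' hkp]
        calc 2 * (k : ℝ) = 2 * y * T := by rw [mul_assoc, hyT]
          _ ≤ φ * T := mul_le_mul_of_nonneg_right hφ1 hT0'.le
      obtain ⟨γs, hγ1, hγ2, hTh⟩ := phase (by linarith) hx2 hx1'
      exact ⟨γs, hγ1, hγ2, by rw [hTh, hkx]⟩
    choose! t ht using hph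
    -- phases in the windows
    have hpw : ∀ i : ℕ, i < M → ∀ γ : ℝ, |γ - t i| ≤ R → 0 < γ ∧ γ ≤ T ∧
        |k * Th γ - Real.pi * (2 * (M + i) + 1)| ≤ 1 := by
      intro i hi γ hγ
      obtain ⟨b1, b2, b3⟩ := ht i hi
      obtain ⟨h3, h4⟩ := abs_le.1 hγ
      have hγp : T / 100 ≤ γ := by linarith
      have hγ0 : 0 < γ := by linarith
      have ht0 : 0 < t i := by linarith
      refine ⟨hγ0, by linarith, ?_⟩
      rw [← b3, ← mul_sub, abs_mul, abs_of_pos hkp]
      have h5 := Th_lip (a := γ) (b := t i) hγ0 ht0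
      have h6 : |γ - t i| / (γ * t i) ≤ 10000 * R / T ^ 2 := by
        rw [div_le_div_iff₀ (by positivity) (by positivity)]
        have h7 : T / 100 * (T / 100) ≤ γ * t i :=
          mul_le_mul hγp (by linarith) (by positivity) hγ0.le
        calc |γ - t i| * T ^ 2 ≤ R * T ^ 2 := mul_le_mul_of_nonneg_right hγ (by positivity)
          _ = 10000 * R * (T / 100 * (T / 100)) := by ring
          _ ≤ 10000 * R * (γ * t i) := mul_le_mul_of_nonneg_left h7 (by positivity)
      have h8 : (k : ℝ) * (10000 * R / T ^ 2) ≤ 1 := by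
        rw [← mul_div_assoc, div_le_one (by positivity)]
        exact hkR
      calc (k : ℝ) * |Th γ - Th (t i)| ≤ k * (10000 * R / T ^ 2) :=
            mul_le_mul_of_nonneg_left (h5.trans h6) hkp.le
        _ ≤ 1 := h8
    have hLow := lc_lower2 hf hk1 (by linarith) hkT2 hline (Finset.range M)
      t (x1 := x1) (x2 := 10 * x1 + 10) (R := R)
      (v := 2) (η := h0 * L) (by norm_num) hx1 (by linarith) hR1
      (fun i hi => by
        obtain ⟨b1, b2, -⟩ := ht i (Finset.mem_range.1 hi)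
        exact hw' _ (by linarith) (by linarith))
      (fun i hi j hj hij γ hγi hγj => by
        have a1 := (hpw i (Finset.mem_range.1 hi) γ hγi).2.2
        have a2 := (hpw j (Finset.mem_range.1 hj) γ hγj).2.2
        apply hij
        have a3 : |Real.pi * (2 * (M + i) + 1) - Real.pi * (2 * (M + j) + 1)| ≤ 2 := by
          have e2 : Real.pi * (2 * ((M : ℝ) + i) + 1) - Real.pi * (2 * (M + j) + 1) =
              (k * Th γ - Real.pi * (2 * (M + j) + 1)) -
              (k * Th γ - Real.pi * (2 * (M + i) + 1)) := by ring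
          rw [e2]
          refine (abs_sub _ _).trans ?_
          linarith
        have e3 : Real.pi * (2 * ((M : ℝ) + i) + 1) - Real.pi * (2 * (M + j) + 1) =
            2 * Real.pi * ((i : ℝ) - j) := by ring
        rw [e3, abs_mul, abs_of_pos (by positivity)] at a3
        have a4 : |(i : ℝ) - j| < 1 := by
          by_contra hc
          push Not at hc
          nlinarith
        have a5 : |((i : ℤ) - j : ℤ)| < 1 := by exact_mod_cast a4
        rw [Int.abs_lt_one_iff] at a5
        omega)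
      (fun i hi γ hγ => by
        obtain ⟨a0, aT, a3⟩ := hpw i (Finset.mem_range.1 hi) γ hγ
        refine ⟨by rw [abs_of_pos a0]; exact aT, ?_⟩
        rw [EE_line k a0]
        have a4 : Real.cos (k * Th γ) = -Real.cos (k * Th γ - Real.pi * (2 * (M + i) + 1)) := by
          have e1 : k * Th γ = (k * Th γ - Real.pi * (2 * (M + i) + 1)) + Real.pi +
              ((M + i : ℕ) : ℝ) * (2 * Real.pi) := by
            push_cast
            ring
          conv_lhs => rw [e1]
          rw [Real.cos_add_nat_mul_two_pi, Real.cos_add_pi]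
        have a5 : 0 ≤ Real.cos (k * Th γ - Real.pi * (2 * (M + i) + 1)) := by
          obtain ⟨a6, a7⟩ := abs_le.1 a3
          apply Real.cos_nonneg_of_mem_Icc
          constructor <;> linarith
        linarith)
    rw [Finset.card_range] at hLow
    have h7 : 5 * (k : ℝ) ^ 2 / (2 * T ^ 3) * L < 1 / 2 * (2 * (M * (h0 * L))) := by
      have e2 : y * (h0 * L) ≤ M * (h0 * L) := mul_le_mul_of_nonneg_right hM1 (by positivity)
      have e1 : y * (h0 * L) = 5 * (k : ℝ) ^ 2 / (2 * T ^ 3) * L * (2 * h0 * T ^ 2 / (5 * k)) := by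
        rw [hy]
        field_simp
      have h8 : 1 < 2 * h0 * T ^ 2 / (5 * k) := by
        rw [lt_div_iff₀ (by positivity)]
        nlinarith
      have h9 : 0 < 5 * (k : ℝ) ^ 2 / (2 * T ^ 3) * L := by positivity
      have h10 : 5 * (k : ℝ) ^ 2 / (2 * T ^ 3) * L < y * (h0 * L) := by
        rw [e1]
        nlinarith
      linarith
    linarith

end Pool.Agent.K3h51.Lh
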