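import Pool.Agent.K3h51.Lh.Pos2
import Pool.Agent.TH839.UH.HWF

set_option autoImplicit false

/-!
# Li coefficients of the derivatives of the L-functions of the class `UL`, uniformly
-/

namespace Pool.Agent.K3h51.Lh

open Complex Filter Topology Metric
open Pool.Agent.W169.HF (Slow heat)
open Pool.Agent.W355.UN (UL ell base_re one_le_cond ell_ge)
open Pool.Agent.TH839.UH (ResD dist_le steps' ell_eq)
open Pool.Agent.K3h51.Li (zw)

variable {m : ℕ} {N : ℝ} {μ : Fin m → ℂ}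

/-! ## The analytic conductor with real parameters -/

theorem nrm_sq {μ : ℂ} (h : μ.im = 0) (y : ℝ) : ‖(y : ℂ) * I - μ‖ ^ 2 = μ.re ^ 2 + y ^ 2 := by
  rw [← Complex.normSq_eq_norm_sq, Complex.normSq_apply]
  simp [h]
  ring

theorem nrm_mono {μ : ℂ} (h : μ.im = 0) {y T : ℝ} (hy : |y| ≤ T) :
    ‖(y : ℂ) * I - μ‖ ≤ ‖(T : ℂ) * I - μ‖ := by
  refine le_of_sq_le_sq ?_ (norm_nonneg _)
  rw [nrm_sq h, nrm_sq h]
  have : y ^ 2 ≤ T ^ 2 := by
    rw [← sq_abs y]
    exact pow_le_pow_left₀ (abs_nonneg y) hy 2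
  linarith

theorem nrm_scale {μ : ℂ} (h : μ.im = 0) {y D : ℝ} (hD : 1 ≤ D) :
    ‖((D * y : ℝ) : ℂ) * I - μ‖ ≤ D * ‖(y : ℂ) * I - μ‖ := by
  refine le_of_sq_le_sq ?_ (by positivity)
  rw [nrm_sq h, mul_pow, mul_pow, nrm_sq h]
  have : μ.re ^ 2 * 1 ≤ μ.re ^ 2 * D ^ 2 :=
    mul_le_mul_of_nonneg_left (one_le_pow₀ hD) (sq_nonneg _)
  nlinarith

theorem le_nrm {μ : ℂ} (h : μ.im = 0) {y : ℝ} : y ≤ ‖(y : ℂ) * I - μ‖ := by
  refine le_of_sq_le_sq ?_ (norm_nonneg _)
  rw [nrm_sq h]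
  nlinarith [sq_nonneg μ.re]

theorem log_cond (hN : 1 ≤ N) (μ : Fin m → ℂ) (y : ℝ) :
    Real.log (W355.UN.cond N μ y) = Real.log N + ∑ j, Real.log (1 + ‖(y : ℂ) * I - μ j‖) := by
  have hN0 : 0 < N := by linarith
  have hp : ∀ j, 0 < 1 + ‖(y : ℂ) * I - μ j‖ := fun j => by positivity
  have hpp : 0 < ∏ j, (1 + ‖(y : ℂ) * I - μ j‖) := Finset.prod_pos fun j _ => hp j
  unfold W355.UN.cond
  rw [Real.log_mul hN0.ne' hpp.ne', Real.log_prod (fun j _ => (hp j).ne')]

theorem cond_mono (hN : 1 ≤ N) (hμ : ∀ j, (μ j).im = 0) {y T : ℝ} (hy : |y| ≤ T) :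
    Real.log (W355.UN.cond N μ y) ≤ Real.log (W355.UN.cond N μ T) := by
  rw [log_cond hN, log_cond hN]
  have : ∑ j, Real.log (1 + ‖(y : ℂ) * I - μ j‖) ≤ ∑ j, Real.log (1 + ‖(T : ℂ) * I - μ j‖) := by
    refine Finset.sum_le_sum fun j _ => Real.log_le_log (by positivity) ?_
    linarith [nrm_mono (hμ j) hy]
  linarith

theorem cond_scale (hN : 1 ≤ N) (hμ : ∀ j, (μ j).im = 0) {y D : ℝ} (hD : 1 ≤ D) :
    Real.log (W355.UN.cond N μ (D * y)) ≤ Real.log (W355.UN.cond N μ y) + m * Real.log D := by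
  rw [log_cond hN, log_cond hN]
  have : ∑ j, Real.log (1 + ‖((D * y : ℝ) : ℂ) * I - μ j‖) ≤
      ∑ j, (Real.log (1 + ‖(y : ℂ) * I - μ j‖) + Real.log D) := by
    refine Finset.sum_le_sum fun j _ => ?_
    rw [← Real.log_mul (by positivity) (by positivity)]
    apply Real.log_le_log (by positivity)
    have := nrm_scale (hμ j) (y := y) hD
    nlinarith [norm_nonneg ((y : ℂ) * I - μ j)]
  rw [Finset.sum_add_distrib, Finset.sum_const, Finset.card_univ, Fintype.card_fin,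
    nsmul_eq_mul] at this
  linarith

theorem cond_big (hN : 1 ≤ N) (hμ : ∀ j, (μ j).im = 0) {T : ℝ} (hT : 0 ≤ T) :
    m * Real.log (1 + T) ≤ Real.log (W355.UN.cond N μ T) := by
  rw [log_cond hN]
  have h0 : 0 ≤ Real.log N := Real.log_nonneg hN
  have : ∑ _j : Fin m, Real.log (1 + T) ≤ ∑ j, Real.log (1 + ‖(T : ℂ) * I - μ j‖) := by
    refine Finset.sum_le_sum fun j _ => Real.log_le_log (by positivity) ?_
    linarith [le_nrm (hμ j) (y := T)]
  rw [Finset.sum_const, Finset.card_univ, Fintype.card_fin, nsmul_eq_mul] at this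
  linarith

/-- upper bound for the slope -/
theorem ell_up (hN : 1 ≤ N) (hr : ∀ j, (μ j).re ≤ 1 / 2) (hμ : ∀ j, (μ j).im = 0) {y S T : ℝ}
    (hS : 1 ≤ S) (hST : S ≤ T) (hy : |y| ≤ T) :
    ell N μ y S ≤ Real.log (W355.UN.cond N μ T) / 2 + 6 * m := by
  rw [ell_eq, log_cond hN]
  have hlp := H353.E.logpi
  have h2 : ∀ j, -(Real.log Real.pi) / 2 +
      (logDeriv Gamma ((1 / 2 + 2 * S + y * I - μ j) / 2)).re / 2 ≤
      1 / 2 * Real.log (1 + ‖(T : ℂ) * I - μ j‖) + 6 := fun j => by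
    obtain ⟨_, hz4, hz⟩ := H353.E.zre (s := 1 / 2 + 2 * S + y * I) (hr j)
      (by rw [base_re]; linarith)
    rw [base_re] at hz4
    obtain ⟨z, hzd⟩ : ∃ z : ℂ, z = (1 / 2 + 2 * S + y * I - μ j) / 2 := ⟨_, rfl⟩
    rw [← hzd] at hz hz4 ⊢
    have h3 := (Complex.abs_re_le_norm _).trans (H353.E.dig_aux hz)
    rw [sub_re, Complex.log_re] at h3
    have h3' := (abs_le.mp h3).2
    have h6 : 0 < ‖z + 2‖ := by
      have := re_le_norm (z + 2)
      rw [add_re, re_ofNat] at this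
      linarith
    have h4 : ‖z + 2‖ ≤ (1 + ‖(T : ℂ) * I - μ j‖) * 3 := by
      have e : z + 2 = ((y : ℂ) * I - μ j) / 2 + ((9 / 4 + S : ℝ) : ℂ) := by
        rw [hzd]
        push_cast
        ring
      rw [e]
      refine (norm_add_le _ _).trans ?_
      rw [norm_div, Complex.norm_ofNat, Complex.norm_real, Real.norm_eq_abs,
        abs_of_pos (by linarith)]
      have a1 := nrm_mono (hμ j) hy
      have a2 := le_nrm (hμ j) (y := T)
      linarith
    have h7 : Real.log ‖z + 2‖ ≤ Real.log (1 + ‖(T : ℂ) * I - μ j‖) + Real.log 3 := by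
      rw [← Real.log_mul (by positivity) (by norm_num)]
      exact Real.log_le_log h6 h4
    have h8 : Real.log 3 ≤ 2 := by
      have := Real.log_le_sub_one_of_pos (show (0:ℝ) < 3 by norm_num)
      linarith
    linarith
  have h3 := Finset.sum_le_sum (s := (Finset.univ : Finset (Fin m))) fun j _ => h2 j
  have e3 : ∑ j, (1 / 2 * Real.log (1 + ‖(T : ℂ) * I - μ j‖) + 6) =
      1 / 2 * ∑ j, Real.log (1 + ‖(T : ℂ) * I - μ j‖) + m * 6 := by
    rw [Finset.sum_add_distrib, ← Finset.mul_sum, Finset.sum_const, Finset.card_univ,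
      Fintype.card_fin, nsmul_eq_mul]
  rw [e3] at h3
  linarith

/-! ## The class -/

/-- L-functions of the class `UL`, with real parameters, real on the real axis, with the zeros in the
strip -/
structure UR (m : ℕ) (B : ℝ → ℝ) (N θ : ℝ) (μ : Fin m → ℂ) (X L : ℂ → ℂ) : Prop where
  ul : UL m B N θ μ X L
  hθ : θ ≤ 1
  im : ∀ j, (μ j).im = 0
  conj : ∀ s, X ((starRingEnd ℂ) s) = (starRingEnd ℂ) (X s)
  strip : ∀ s, X s = 0 → |s.re - 1 / 2| ≤ 1 / 2

variable {B : ℝ → ℝ} {θ : ℝ} {X L : ℂ → ℂ}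

/-- centred at the line -/
noncomputable def cen (X : ℂ → ℂ) (z : ℂ) : ℂ := X (1 / 2 + z)

theorem UR.fe' (h : UR m B N θ μ X L) : ∃ ε : ℂ, (ε = 1 ∨ ε = -1) ∧ ∀ s, X (1 - s) = ε * X s := by
  obtain ⟨ε, hε, hfe⟩ := h.ul.fe
  have h1 : ∀ s, X s = ε * X (1 - s) := fun s => by
    have h2 := hfe s
    rw [← h.conj, map_sub, map_one, Complex.conj_conj] at h2
    exact h2
  have hε2 : ε * ε = 1 := by
    obtain ⟨z, hz⟩ := h.ul.nontriv
    have h2 := h1 z
    rw [h1 (1 - z), sub_sub_cancel, ← mul_assoc] at h2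
    exact (mul_left_injective₀ hz (by simpa using h2)).symm
  have h3 : (ε - 1) * (ε + 1) = 0 := by linear_combination hε2
  refine ⟨ε, ?_, fun s => ?_⟩
  · rcases mul_eq_zero.1 h3 with h | h
    · exact Or.inl (sub_eq_zero.1 h)
    · exact Or.inr (eq_neg_of_add_eq_zero_left h)
  · have := h1 (1 - s)
    rw [sub_sub_cancel] at this
    exact this

theorem UR.sy (h : UR m B N θ μ X L) : Sy (cen X) := by
  refine ⟨?_, ?_, fun z => ?_, fun z hz => ?_⟩
  · have := Pool.Agent.W355.UN.slow_affine h.ul.slow (1 / 2) (S := 1) one_pos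
    have e : (fun u : ℂ => X (1 / 2 + ((1 : ℝ) : ℂ) * u)) = cen X := by
      funext u
      unfold cen
      rw [Complex.ofReal_one, one_mul]
    rwa [e] at this
  · obtain ⟨ε, hε, hfe⟩ := h.fe'
    have e : ∀ z, cen X (-z) = ε * cen X z := fun z => by
      unfold cen
      rw [← hfe]
      congr 1
      ring
    rcases hε with rfl | rfl
    · left
      intro z
      rw [e, one_mul]
    · right
      intro z
      rw [e]
      ring
  · unfold cen
    rw [← h.conj]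
    congr 1
    simp only [map_add, map_div₀, map_one, map_ofNat]
  · have := h.strip _ hz
    have e : (1 / 2 + z : ℂ).re - 1 / 2 = z.re := by simp
    rwa [e] at this

theorem iter_cen (X : ℂ → ℂ) (n : ℕ) (z : ℂ) :
    iteratedDeriv n (cen X) z = iteratedDeriv n X (1 / 2 + z) := by
  have : cen X = fun z => X (1 / 2 + z) := rfl
  rw [this, iteratedDeriv_comp_const_add]

theorem UR.nz (h : UR m B N θ μ X L) : Nz (cen X) := by
  intro n
  obtain ⟨z, hz⟩ := (steps' h.ul h.hθ n).1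
  refine ⟨z - 1 / 2, ?_⟩
  rw [iter_cen, add_sub_cancel]
  exact hz

theorem logDeriv_cen (X : ℂ → ℂ) (n : ℕ) (z : ℂ) :
    logDeriv (iteratedDeriv n (cen X)) z = logDeriv (iteratedDeriv n X) (1 / 2 + z) := by
  rw [logDeriv_apply, logDeriv_apply, ← iteratedDeriv_succ, ← iteratedDeriv_succ, iter_cen, iter_cen]

/-- The logarithmic derivative of the `n`-th derivative at distance `x` from the line. -/
theorem G_near (h : UR m B N θ μ X L) (n : ℕ) {x y : ℝ} (hx : 12 ≤ x) :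
    |(logDeriv (iteratedDeriv n (cen X)) (x + y * I)).re - ell N μ y (x / 2)| ≤
      m * (6 + B 1) + 4 * n / (x - 3 / 2) := by
  have h1 := dist_le h.ul h.hθ (S := x / 2) (y := y) (w := 0) (by linarith) (by
    rw [add_zero, base_re]
    linarith)
  rw [norm_zero, mul_zero, zero_add, add_zero] at h1
  have e : (1 / 2 + 2 * ((x / 2 : ℝ) : ℂ) + y * I : ℂ) = 1 / 2 + (x + y * I) := by
    push_cast
    ring
  rw [e] at h1
  have hre : (1 / 2 + (x + y * I) : ℂ).re = 1 / 2 + x := by simp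
  obtain ⟨-, -, h3⟩ := steps' h.ul h.hθ n
  obtain ⟨-, h4⟩ := h3 (1 / 2 + (x + y * I)) (by
    rw [hre]
    have := h.hθ
    linarith)
  rw [hre] at h4
  rw [logDeriv_cen, logDeriv_apply]
  have h5 : 4 * (n : ℝ) / (1 / 2 + x - 1 / 2 - (1 / 2 + θ)) ≤ 4 * n / (x - 3 / 2) := by
    apply div_le_div_of_nonneg_left (by positivity) (by linarith)
    have := h.hθ
    linarith
  have h6 : ‖deriv (iteratedDeriv n X) (1 / 2 + (x + y * I)) / iteratedDeriv n X (1 / 2 + (x + y * I)) -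
      ell N μ y (x / 2)‖ ≤ m * (6 + B 1) + 4 * n / (x - 3 / 2) := by
    rw [logDeriv_apply] at h1
    have e2 : deriv (iteratedDeriv n X) (1 / 2 + (x + y * I)) / iteratedDeriv n X (1 / 2 + (x + y * I)) -
        ell N μ y (x / 2) = (deriv (iteratedDeriv n X) (1 / 2 + (x + y * I)) /
          iteratedDeriv n X (1 / 2 + (x + y * I)) -
          deriv X (1 / 2 + (x + y * I)) / X (1 / 2 + (x + y * I))) +
        (deriv X (1 / 2 + (x + y * I)) / X (1 / 2 + (x + y * I)) - ell N μ y (x / 2)) := by ring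
    rw [e2]
    refine (norm_add_le _ _).trans ?_
    linarith
  have h7 := (Complex.abs_re_le_norm _).trans h6
  rwa [sub_re, Complex.ofReal_re] at h7

/-- Two sided bounds at large height. -/
theorem G_bounds {B1 C0 : ℝ} (hB1 : 0 ≤ B1) (hC0 : 0 < C0) : ∃ xm TT : ℝ, 12 ≤ xm ∧ 1 ≤ TT ∧
    ∀ (m : ℕ) (N θ : ℝ) (μ : Fin m → ℂ) (B : ℝ → ℝ) (X L : ℂ → ℂ), B 1 ≤ B1 →
      UR m B N θ μ X L → ∀ (T : ℝ) (n : ℕ), TT ≤ T →
        (n : ℝ) = C0 * (m + Real.log (W355.UN.cond N μ T)) →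
        (∀ x y : ℝ, xm ≤ x → x ≤ T → |y| ≤ T →
          (logDeriv (iteratedDeriv n (cen X)) (x + y * I)).re ≤
            13 / 25 * (m + Real.log (W355.UN.cond N μ T))) ∧
        (∀ x y : ℝ, xm ≤ x → x ≤ T → T / 200 ≤ y → y ≤ T →
          12 / 25 * (m + Real.log (W355.UN.cond N μ T)) ≤
            (logDeriv (iteratedDeriv n (cen X)) (x + y * I)).re) := by
  refine ⟨12 + 800 * C0, Real.exp (200 * (20 + B1)), by linarith, Real.one_le_exp (by positivity), ?_⟩
  intro m N θ μ B X L hB h T n hT hn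
  have hm : (1 : ℝ) ≤ m := by exact_mod_cast h.ul.hm
  obtain ⟨ℓ, hℓ⟩ : ∃ ℓ : ℝ, ℓ = m + Real.log (W355.UN.cond N μ T) := ⟨_, rfl⟩
  rw [← hℓ] at hn ⊢
  have hT1 : 1 ≤ T := le_trans (Real.one_le_exp (by positivity)) hT
  have hbig := cond_big h.ul.hN h.im (T := T) (by linarith)
  have hl1 : 200 * (20 + B1) ≤ Real.log (1 + T) := by
    rw [Real.le_log_iff_exp_le (by linarith)]
    linarith
  have hmℓ : m * (200 * (20 + B1)) ≤ ℓ := by
    have : m * (200 * (20 + B1)) ≤ m * Real.log (1 + T) :=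
      mul_le_mul_of_nonneg_left hl1 (by linarith)
    linarith
  have hℓ0 : 0 < ℓ := by nlinarith
  have hB' : m * (6 + B 1) ≤ m * (6 + B1) := mul_le_mul_of_nonneg_left (by linarith) (by linarith)
  have hnx : ∀ x : ℝ, 12 + 800 * C0 ≤ x → 4 * (n : ℝ) / (x - 3 / 2) ≤ ℓ / 200 := by
    intro x hx
    rw [div_le_div_iff₀ (by linarith) (by norm_num), hn]
    nlinarith
  constructor
  · intro x y hx hxT hy
    have h1 := (abs_le.1 (G_near h n (x := x) (y := y) (by linarith))).2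
    have h2 := ell_up h.ul.hN h.ul.re_le h.im (y := y) (S := x / 2) (T := T) (by linarith)
      (by linarith) hy
    have h3 := hnx x hx
    nlinarith
  · intro x y hx hxT hy hyT
    have h1 := (abs_le.1 (G_near h n (x := x) (y := y) (by linarith))).1
    have h2 := ell_ge h.ul.hN h.ul.re_le (y := y) (S := x / 2) (by linarith)
    have h3 := hnx x hx
    have h4 := cond_scale h.ul.hN h.im (y := y) (D := 200) (by norm_num)
    have h5 := cond_mono h.ul.hN h.im (y := T) (T := 200 * y) (by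
      rw [abs_of_nonneg (by linarith)]
      linarith)
    have h6 : Real.log 200 ≤ 8 := by
      rw [Real.log_le_iff_le_exp (by norm_num)]
      have h7 : (27 / 10 : ℝ) ≤ Real.exp 1 := by
        have := Real.exp_one_gt_d9
        linarith
      have h8 := pow_le_pow_left₀ (by norm_num) h7 8
      rw [← Real.exp_nat_mul] at h8
      norm_num at h8
      linarith
    have h7 : m * Real.log 200 ≤ m * 8 := mul_le_mul_of_nonneg_left h6 (by linarith)
    nlinarith

end Pool.Agent.K3h51.Lh
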